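import Mathlib

set_option autoImplicit false
open Finset

namespace Pool.Agent.H.MP_2b959d_co

theorem amgm (s : Multiset ℝ) (h : ∀ a ∈ s, 0 ≤ a) (μ : ℝ) (hμ : 0 < μ) :
    (s.map fun a => 1 + a).prod ≤ μ ^ s.card * Real.exp ((s.card + s.sum) / μ - s.card) := by
  induction s using Multiset.induction_on with
  | empty => simp
  | cons a s ih =>
    have ih' := ih fun b hb => h b (Multiset.mem_cons_of_mem hb)
    have ha := h a (Multiset.mem_cons_self _ _)
    rw [Multiset.map_cons, Multiset.prod_cons, Multiset.card_cons, Multiset.sum_cons]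
    have h1 : 1 + a ≤ μ * Real.exp ((1 + a) / μ - 1) := by
      have := Real.add_one_le_exp ((1 + a) / μ - 1)
      have e : 1 + a = μ * ((1 + a) / μ - 1 + 1) := by field_simp; ring
      nth_rewrite 1 [e]
      exact mul_le_mul_of_nonneg_left this hμ.le
    have h2 : 0 ≤ (s.map fun a => 1 + a).prod :=
      Multiset.prod_map_nonneg fun b hb => by linarith [h b (Multiset.mem_cons_of_mem hb)]
    refine (mul_le_mul h1 ih' h2 (by positivity)).trans (le_of_eq ?_)
    have e : ((((s.card + 1 : ℕ) : ℝ) + (a + s.sum)) / μ - ((s.card + 1 : ℕ) : ℝ))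
        = ((1 + a) / μ - 1) + ((s.card + s.sum) / μ - s.card) := by push_cast; ring
    rw [e, Real.exp_add, pow_succ]; ring

open Polynomial in
theorem uni (q : ℂ[X]) (m : ℕ) (hm : 1 ≤ m) (hd : q.natDegree ≤ m + 1) (h0 : 0 < q.degree)
    (hr : ∀ t, q.eval t = 0 → t.re < 0 ∧ t.im = 0) (c : ℝ)
    (hc : ∀ t : ℝ, 0 < t → c * t ≤ ‖q.eval (t : ℂ)‖) :
    c * ((m : ℝ) / (m + 1)) ^ m ≤ ‖q.coeff 1‖ := by
  have hq : q ≠ 0 := by rintro rfl; simp at h0
  have hsp : q.Splits := IsAlgClosed.splits q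
  have hz : q.eval 0 ≠ 0 := fun h => by simpa using (hr 0 h).1
  have hroot : ∀ z ∈ q.roots, z.re < 0 ∧ z.im = 0 := fun z hz => hr z ((mem_roots hq).1 hz)
  set s : Multiset ℝ := q.roots.map fun z => -1 / z.re with hs
  have hs0 : ∀ a ∈ s, 0 < a := by
    intro a ha
    obtain ⟨z, hz, rfl⟩ := Multiset.mem_map.1 ha
    exact div_pos_of_neg_of_neg (by norm_num) (hroot z hz).1
  have hcard : s.card = q.natDegree := by rw [hs, Multiset.card_map, hsp.natDegree_eq_card_roots]
  have hS : 0 < s.sum := by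
    have := natDegree_pos_iff_degree_pos.2 h0
    obtain ⟨a, ha⟩ := Multiset.card_pos_iff_exists_mem.1 (show 0 < s.card by omega)
    exact (hs0 a ha).trans_le (Multiset.single_le_sum (fun b hb => (hs0 b hb).le) a ha)
  have h1 : ‖q.coeff 1‖ = ‖q.eval 0‖ * s.sum := by
    have e1 := hsp.eval_derivative_div_eval_of_ne_zero hz
    have e2 : (q.roots.map fun x => 1 / (0 - x)).sum = (s.sum : ℂ) := by
      rw [hs, ← Complex.coe_algebraMap, map_multiset_sum, Multiset.map_map]
      congr 1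
      refine Multiset.map_congr rfl fun z hz => ?_
      have : z = (z.re : ℂ) := Complex.ext rfl (by simp [(hroot z hz).2])
      simp only [Function.comp, Complex.coe_algebraMap]
      nth_rewrite 1 [this]
      push_cast
      rw [zero_sub, div_neg, neg_div]
    rw [e2, div_eq_iff hz, ← coeff_zero_eq_eval_zero, coeff_derivative] at e1
    simp only [Nat.cast_zero, zero_add, mul_one] at e1
    rw [e1, norm_mul, Complex.norm_real, Real.norm_of_nonneg hS.le, mul_comm]
  have h2 : ∀ t : ℝ, 0 ≤ t → ‖q.eval (t : ℂ)‖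
      = ‖q.eval 0‖ * ((s.map fun a => t * a).map fun a => 1 + a).prod := by
    intro t ht
    have e : q.eval (t : ℂ) = q.eval 0 * (((s.map fun a => t * a).map fun a => 1 + a).prod : ℝ) := by
      rw [hsp.eval_eq_prod_roots, hsp.eval_eq_prod_roots, mul_assoc, ← Complex.coe_algebraMap,
        map_multiset_prod, hs, Multiset.map_map, Multiset.map_map, Multiset.map_map,
        ← Multiset.prod_map_mul]
      congr 2
      refine Multiset.map_congr rfl fun z hz => ?_
      have e1 : z = (z.re : ℂ) := Complex.ext rfl (by simp [(hroot z hz).2])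
      have e2 : (z.re : ℂ) ≠ 0 := by exact_mod_cast (hroot z hz).1.ne
      simp only [Function.comp, Complex.coe_algebraMap]
      nth_rewrite 1 2 [e1]
      push_cast
      field_simp
      ring
    rw [e, norm_mul, Complex.norm_real, Real.norm_of_nonneg]
    refine Multiset.prod_map_nonneg fun b hb => ?_
    obtain ⟨a, ha, rfl⟩ := Multiset.mem_map.1 hb
    have := hs0 a ha
    positivity
  have hm' : (0 : ℝ) < m := by exact_mod_cast hm
  set t : ℝ := (m + 1) / (m * s.sum) with ht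
  have ht0 : 0 < t := by positivity
  set μ : ℝ := (m + 1) / m with hμ
  set s' : Multiset ℝ := (s.map fun a => t * a) + Multiset.replicate (m + 1 - s.card) 0 with hs'
  have h3 := amgm s' (by
    intro b hb
    rcases Multiset.mem_add.1 hb with hb | hb
    · obtain ⟨a, ha, rfl⟩ := Multiset.mem_map.1 hb
      have := hs0 a ha
      positivity
    · rw [Multiset.eq_of_mem_replicate hb]) μ (by positivity)
  have c1 : s'.card = m + 1 := by
    rw [hs', Multiset.card_add, Multiset.card_map, Multiset.card_replicate]; omega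
  have c2 : s'.sum = μ := by
    rw [hs', Multiset.sum_add, Multiset.sum_replicate, smul_zero, add_zero,
      Multiset.sum_map_mul_left, Multiset.map_id', ht, hμ]
    field_simp
  have c3 : (s'.map fun a => 1 + a).prod = ((s.map fun a => t * a).map fun a => 1 + a).prod := by
    rw [hs', Multiset.map_add, Multiset.prod_add, Multiset.map_replicate, Multiset.prod_replicate]
    simp
  have c4 : ((((m + 1 : ℕ) : ℝ) + μ) / μ - ((m + 1 : ℕ) : ℝ)) = 0 := by
    rw [hμ]; push_cast; field_simp; ring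
  rw [c1, c2, c3, c4, Real.exp_zero, mul_one] at h3
  have h4 := hc t ht0
  rw [h2 t ht0.le] at h4
  have h5 : c * t ≤ ‖q.eval 0‖ * μ ^ (m + 1) :=
    h4.trans (mul_le_mul_of_nonneg_left h3 (norm_nonneg _))
  rw [h1]
  have h6 : c * ((m : ℝ) / (m + 1)) ^ m = (c * t) * (s.sum / μ ^ (m + 1)) := by
    rw [ht, hμ, div_pow, div_pow, pow_succ, pow_succ]; field_simp
  have h7 : ‖q.eval 0‖ * s.sum = (‖q.eval 0‖ * μ ^ (m + 1)) * (s.sum / μ ^ (m + 1)) := by
    have : 0 < μ := by positivity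
    field_simp
  rw [h6, h7]
  exact mul_le_mul_of_nonneg_right h5 (by positivity)

open MvPolynomial

theorem scale {σ : Type*} [Fintype σ] {p : MvPolynomial σ ℂ} {n : ℕ} (hp : p.IsHomogeneous n)
    (l : ℂ) (z : σ → ℂ) : eval (fun j => l * z j) p = l ^ n * eval z p := by
  rw [eval_eq', eval_eq', mul_sum]
  refine sum_congr rfl fun d hd => ?_
  have : ∑ i, d i = n := by
    by_contra h
    exact mem_support_iff.1 hd (hp.coeff_eq_zero (by rwa [Finsupp.degree_eq_sum]))
  simp only [mul_pow, prod_mul_distrib, prod_pow_eq_pow_sum, this]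
  ring

def St {m : ℕ} (p : MvPolynomial (Fin m) ℂ) : Prop :=
  ∀ z : Fin m → ℂ, (∀ j, 0 ≤ (z j).re) → (∃ j, 0 < (z j).re) → eval z p ≠ 0

noncomputable def Q {m : ℕ} (p : MvPolynomial (Fin (m + 1)) ℂ) (y : Fin m → ℂ) : Polynomial ℂ :=
  Polynomial.map (eval y) (finSuccEquiv ℂ m p)

noncomputable def D {m : ℕ} (p : MvPolynomial (Fin (m + 1)) ℂ) : MvPolynomial (Fin m) ℂ :=
  (finSuccEquiv ℂ m p).coeff 1

theorem Q_eval {m : ℕ} (p : MvPolynomial (Fin (m + 1)) ℂ) (y : Fin m → ℂ) (t : ℂ) :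
    (Q p y).eval t = eval (Fin.cons t y : Fin (m + 1) → ℂ) p := (eval_eq_eval_mv_eval' y t p).symm

theorem Q_coeff {m : ℕ} (p : MvPolynomial (Fin (m + 1)) ℂ) (y : Fin m → ℂ) :
    (Q p y).coeff 1 = eval y (D p) := Polynomial.coeff_map _ _

theorem Q_deg {m : ℕ} {p : MvPolynomial (Fin (m + 1)) ℂ} (hp : p.IsHomogeneous (m + 1))
    (y : Fin m → ℂ) : (Q p y).natDegree ≤ m + 1 :=
  Polynomial.natDegree_map_le.trans ((natDegree_finSuccEquiv p).le.trans
    ((degreeOf_le_totalDegree _ _).trans hp.totalDegree_le))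

theorem Q_top {m : ℕ} {p : MvPolynomial (Fin (m + 1)) ℂ} (hp : p.IsHomogeneous (m + 1))
    (y : Fin m → ℂ) :
    (Q p y).coeff (m + 1) = eval (Fin.cons 1 (fun _ => 0) : Fin (m + 1) → ℂ) p := by
  rw [← Q_eval, Polynomial.eval_eq_sum_range' (Nat.lt_succ_of_le (Q_deg hp _)), sum_range_succ,
    sum_eq_zero, zero_add, one_pow, mul_one]
  · have h := scale (hp.finSuccEquiv_coeff_isHomogeneous (m + 1) 0 rfl) 0 y
    simp only [zero_mul, pow_zero, one_mul] at h
    simp only [Q, Polynomial.coeff_map]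
    exact h.symm
  · intro i hi
    have hi' := mem_range.1 hi
    have h := scale (hp.finSuccEquiv_coeff_isHomogeneous i (m + 1 - i) (by omega)) 0 y
    simp only [zero_mul] at h
    simp only [Q, Polynomial.coeff_map]
    rw [h, zero_pow (by omega)]; ring

theorem Q_pos {m : ℕ} {p : MvPolynomial (Fin (m + 1)) ℂ} (hp : p.IsHomogeneous (m + 1))
    (hs : St p) (y : Fin m → ℂ) : 0 < (Q p y).degree := by
  have h : (Q p y).coeff (m + 1) ≠ 0 := by
    rw [Q_top hp]
    refine hs _ (fun j => ?_) ⟨0, by simp⟩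
    refine Fin.cases ?_ (fun j => ?_) j <;> simp
  refine lt_of_lt_of_le ?_ (Polynomial.le_degree_of_ne_zero h)
  exact_mod_cast Nat.succ_pos m

theorem Q_root {m : ℕ} {p : MvPolynomial (Fin (m + 1)) ℂ} (hs : St p) {y : Fin m → ℂ}
    (h1 : ∀ j, 0 ≤ (y j).re) (h2 : ∃ j, 0 < (y j).re) (t : ℂ) (ht : (Q p y).eval t = 0) :
    t.re < 0 := by
  by_contra h
  rw [Q_eval] at ht
  obtain ⟨j, hj⟩ := h2
  refine hs _ (fun j => ?_) ⟨j.succ, by simpa using hj⟩ ht
  refine Fin.cases ?_ (fun j => ?_) j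
  · simpa using h
  · simpa using h1 j

theorem D_st {m : ℕ} {p : MvPolynomial (Fin (m + 1)) ℂ} (hp : p.IsHomogeneous (m + 1))
    (hs : St p) : St (D p) := by
  intro y h1 h2 h
  have hpos := Q_pos hp hs y
  have hd : (Q p y).derivative ≠ 0 := fun e => by
    have := Polynomial.derivative_eq_zero.1 e
    have := Polynomial.natDegree_pos_iff_degree_pos.2 hpos
    omega
  have h0 : (0 : ℂ) ∈ (Q p y).derivative.rootSet ℂ := by
    rw [Polynomial.mem_rootSet, Polynomial.coe_aeval_eq_eval, ← Polynomial.coeff_zero_eq_eval_zero,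
      Polynomial.coeff_derivative, zero_add, Q_coeff, h]
    exact ⟨hd, zero_mul _⟩
  have h3 := Polynomial.rootSet_derivative_subset_convexHull_rootSet hpos h0
  have h4 : convexHull ℝ ((Q p y).rootSet ℂ) ⊆ {c : ℂ | c.re < 0} :=
    convexHull_min (fun t ht => by
      rw [Polynomial.mem_rootSet, Polynomial.coe_aeval_eq_eval] at ht
      exact Q_root hs h1 h2 t ht.2) (convex_halfSpace_re_lt 0)
  simpa using h4 h3

theorem D_hom {m : ℕ} {p : MvPolynomial (Fin (m + 1)) ℂ} (hp : p.IsHomogeneous (m + 1)) :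
    (D p).IsHomogeneous m := hp.finSuccEquiv_coeff_isHomogeneous 1 m (add_comm _ _)

theorem D_cap {m : ℕ} {p : MvPolynomial (Fin (m + 1)) ℂ} (hp : p.IsHomogeneous (m + 1))
    (hs : St p) (c : ℝ)
    (hc : ∀ x : Fin (m + 1) → ℝ, (∀ j, 0 < x j) → c * ∏ j, x j ≤ ‖eval (fun j => (x j : ℂ)) p‖)
    (y : Fin m → ℝ) (hy : ∀ j, 0 < y j) :
    c * ((m : ℝ) / (m + 1)) ^ m * ∏ j, y j ≤ ‖eval (fun j => (y j : ℂ)) (D p)‖ := by
  rcases Nat.eq_zero_or_pos m with rfl | hm
  · have h := hc (fun _ => 1) fun _ => one_pos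
    rw [← Q_coeff]
    have e : (Q p fun j => (y j : ℂ)).coeff 1 = _ := Q_top hp fun j => (y j : ℂ)
    rw [e]
    have : (Fin.cons 1 (fun _ => 0) : Fin (0 + 1) → ℂ) = fun j => ((1 : ℝ) : ℂ) := by
      funext j
      refine Fin.cases ?_ (fun j => j.elim0) j
      simp
    rw [this]
    simpa using h
  have h1 : ∀ j, 0 ≤ ((y j : ℂ)).re := fun j => by simpa using (hy j).le
  have h2 : ∃ j, 0 < ((y j : ℂ)).re := ⟨⟨0, hm⟩, by simpa using hy _⟩
  have h := uni (Q p fun j => (y j : ℂ)) m hm (Q_deg hp _) (Q_pos hp hs _) (fun t ht => by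
    have hre := Q_root hs h1 h2 t ht
    refine ⟨hre, ?_⟩
    by_contra hb
    rw [Q_eval] at ht
    have h3 := scale hp (⟨t.im ^ 2, t.re * t.im⟩ : ℂ)
      (Fin.cons t (fun j => (y j : ℂ)) : Fin (m + 1) → ℂ)
    rw [ht, mul_zero] at h3
    have hb2 : 0 < t.im ^ 2 := by positivity
    refine hs _ (fun j => ?_) ⟨(⟨0, hm⟩ : Fin m).succ, ?_⟩ h3
    · refine Fin.cases ?_ (fun j => ?_) j
      · simp only [Fin.cons_zero, Complex.mul_re]; nlinarith
      · simp only [Fin.cons_succ, Complex.mul_re, Complex.ofReal_re, Complex.ofReal_im]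
        nlinarith [mul_pos hb2 (hy j)]
    · simp only [Fin.cons_succ, Complex.mul_re, Complex.ofReal_re, Complex.ofReal_im]
      nlinarith [mul_pos hb2 (hy ⟨0, hm⟩)]) (c * ∏ j, y j) (fun t ht => by
    have h3 := hc (Fin.cons t y) fun j => Fin.cases (by simpa using ht) (fun j => by simpa using hy j) j
    rw [Fin.prod_univ_succ] at h3
    rw [Q_eval]
    have e : (fun j => (((Fin.cons t y : Fin (m + 1) → ℝ) j : ℝ) : ℂ))
        = (Fin.cons (t : ℂ) (fun j => (y j : ℂ)) : Fin (m + 1) → ℂ) := by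
      funext j
      refine Fin.cases ?_ (fun j => ?_) j <;> simp
    rw [e] at h3
    simp only [Fin.cons_zero, Fin.cons_succ] at h3
    linarith)
  rw [Q_coeff] at h
  linarith

noncomputable def ones (m : ℕ) : Fin m →₀ ℕ := Finsupp.equivFunOnFinite.symm fun _ => 1

theorem coeff_D {m : ℕ} (p : MvPolynomial (Fin (m + 1)) ℂ) :
    coeff (ones m) (D p) = coeff (ones (m + 1)) p := by
  rw [D, finSuccEquiv_coeff_coeff]
  congr 1
  ext j
  refine Fin.cases ?_ (fun j => ?_) j <;> simp [ones]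

theorem gur (m : ℕ) : ∀ (p : MvPolynomial (Fin m) ℂ), p.IsHomogeneous m → St p → ∀ c : ℝ,
    (∀ x : Fin m → ℝ, (∀ j, 0 < x j) → c * ∏ j, x j ≤ ‖eval (fun j => (x j : ℂ)) p‖) →
    c * (m.factorial / (m : ℝ) ^ m) ≤ ‖coeff (ones m) p‖ := by
  induction m with
  | zero =>
    intro p _ _ c hc
    have h := hc (fun _ => 1) fun _ => one_pos
    rw [eq_C_of_isEmpty p, eval_C] at h
    rw [Subsingleton.elim (ones 0) 0]
    simpa using h
  | succ m ih =>
    intro p hp hs c hc
    have h := ih (D p) (D_hom hp) (D_st hp hs) _ (D_cap hp hs c hc)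
    rw [coeff_D] at h
    refine le_trans (le_of_eq ?_) h
    have h1 : (m : ℝ) ^ m ≠ 0 := by
      rcases Nat.eq_zero_or_pos m with rfl | hm
      · simp
      · positivity
    rw [div_pow, Nat.factorial_succ, pow_succ]
    push_cast
    field_simp

end Pool.Agent.H.MP_2b959d_co
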