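import Pool.Agent.H.MP_2b959d_co.A

set_option autoImplicit false
open Finset

namespace Pool.Agent.H.MP_2b959d_co

theorem per_eq {ι R : Type*} [Fintype ι] [DecidableEq ι] [CommSemiring R] (M : Matrix ι ι R) :
    M.permanent = ∑ σ : Equiv.Perm ι, ∏ i, M i (σ i) := by
  rw [← Matrix.permanent_transpose]; rfl

theorem ulog (u v : ℝ) (hu : 0 < u) (hu1 : u ≤ 1) (hv : 0 < v) (hv1 : v ≤ 1) :
    u * Real.log v + (u - v) + (u - v) ^ 2 / 4 ≤ u * Real.log u := by
  obtain ⟨a, ha, rfl⟩ : ∃ a, 0 < a ∧ u = a ^ 2 := ⟨√u, Real.sqrt_pos.2 hu, (Real.sq_sqrt hu.le).symm⟩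
  obtain ⟨b, hb, rfl⟩ : ∃ a, 0 < a ∧ v = a ^ 2 := ⟨√v, Real.sqrt_pos.2 hv, (Real.sq_sqrt hv.le).symm⟩
  have h1 := Real.log_le_sub_one_of_pos (div_pos hb ha)
  rw [Real.log_div hb.ne' ha.ne'] at h1
  have h2 : a ^ 2 * (Real.log b - Real.log a) ≤ a * b - a ^ 2 := by
    have := mul_le_mul_of_nonneg_left h1 (sq_nonneg a)
    refine this.trans (le_of_eq ?_)
    field_simp
  have ha1 : a ≤ 1 := by nlinarith
  have hb1 : b ≤ 1 := by nlinarith
  have h3 : (a ^ 2 - b ^ 2) ^ 2 / 4 ≤ (a - b) ^ 2 := by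
    have : (a ^ 2 - b ^ 2) ^ 2 / 4 = (a - b) ^ 2 * ((a + b) ^ 2 / 4) := by ring
    rw [this]
    refine mul_le_of_le_one_right (sq_nonneg _) ?_
    nlinarith
  rw [Real.log_pow, Real.log_pow]
  push_cast
  nlinarith

theorem jensen_log {ι : Type*} [Fintype ι] (w z : ι → ℝ) (hw : ∀ i, 0 ≤ w i) (h1 : ∑ i, w i = 1)
    (hz : ∀ i, 0 < z i) : ∑ i, w i * Real.log (z i) ≤ Real.log (∑ i, w i * z i) := by
  simpa using strictConcaveOn_log_Ioi.concaveOn.le_map_sum (t := univ) (w := w) (p := z)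
    (fun i _ => hw i) h1 fun i _ => hz i

theorem cap_first {m : ℕ} (hm : 1 ≤ m) (A : Matrix (Fin (m + 1)) (Fin (m + 1)) ℝ)
    (h0 : ∀ i j, 0 < A i j) (hr : ∀ i, ∑ j, A i j = 1) (hc : ∀ j, ∑ i, A i j = 1)
    (i0 : Fin (m + 1)) (y : Fin m → ℝ) (hy : ∀ j, 0 < y j) :
    ((m : ℝ) / (m + 1)) ^ m * (1 + (A i0 0 - 1 / (m + 1)) ^ 2 / 4) * ∏ j, y j
      ≤ ∑ i, A i 0 * ∏ i' ∈ univ.erase i, ∑ l : Fin m, A i' l.succ * y l := by
  have : Nonempty (Fin m) := ⟨⟨0, hm⟩⟩
  have hm' : (0 : ℝ) < m := by exact_mod_cast hm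
  set s : Fin (m + 1) → ℝ := fun i => ∑ l : Fin m, A i l.succ * y l with hs
  have hs0 : ∀ i, 0 < s i := fun i => sum_pos (fun l _ => mul_pos (h0 _ _) (hy l)) univ_nonempty
  set u : Fin (m + 1) → ℝ := fun i => 1 - A i 0 with hu
  have hu' : ∀ i, u i = ∑ l : Fin m, A i l.succ := fun i => by
    have := hr i
    rw [Fin.sum_univ_succ] at this
    simp only [hu]; linarith
  have hu0 : ∀ i, 0 < u i := fun i => by
    rw [hu']; exact sum_pos (fun l _ => h0 _ _) univ_nonempty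
  have hu1 : ∀ i, u i ≤ 1 := fun i => by simp only [hu]; linarith [h0 i 0]
  have hsum : ∑ i, u i = m := by
    simp only [hu, sum_sub_distrib, hc, sum_const, card_univ, Fintype.card_fin, nsmul_eq_mul]
    push_cast; ring
  set v : ℝ := m / (m + 1) with hv
  have hv0 : 0 < v := by positivity
  have hv1 : v ≤ 1 := by rw [hv, div_le_one (by positivity)]; linarith
  have j1 := jensen_log (fun i => A i 0) (fun i => ∏ i' ∈ univ.erase i, s i')
    (fun i => (h0 i 0).le) (hc 0) fun i => prod_pos fun i' _ => hs0 i'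
  have e1 : ∀ i, Real.log (∏ i' ∈ univ.erase i, s i') = ∑ i', Real.log (s i') - Real.log (s i) := by
    intro i
    rw [Real.log_prod fun i' _ => (hs0 i').ne', ← add_sum_erase _ _ (mem_univ i)]
    ring
  have e2 : ∑ i, A i 0 * Real.log (∏ i' ∈ univ.erase i, s i') = ∑ i, u i * Real.log (s i) := by
    simp only [e1, mul_sub, sum_sub_distrib, ← sum_mul, hc, hu, sub_mul, one_mul]
  have j2 : ∀ i, u i * Real.log (u i) + ∑ l : Fin m, A i l.succ * Real.log (y l)
      ≤ u i * Real.log (s i) := by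
    intro i
    have hui := hu0 i
    have a1 := jensen_log (fun l : Fin m => A i l.succ / u i) y
      (fun l => (div_pos (h0 _ _) hui).le) (by rw [← sum_div, ← hu', div_self hui.ne']) hy
    have a2 : ∑ l : Fin m, A i l.succ / u i * y l = s i / u i := by
      rw [hs, sum_div]; exact sum_congr rfl fun l _ => by ring
    rw [a2, Real.log_div (hs0 i).ne' hui.ne'] at a1
    have a3 := mul_le_mul_of_nonneg_left a1 hui.le
    have a4 : u i * ∑ l : Fin m, A i l.succ / u i * Real.log (y l)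
        = ∑ l : Fin m, A i l.succ * Real.log (y l) := by
      rw [mul_sum]; exact sum_congr rfl fun l _ => by field_simp
    rw [a4] at a3
    linarith
  have j3 := sum_le_sum fun i (_ : i ∈ univ) => j2 i
  have e3 : ∑ i, ∑ l : Fin m, A i l.succ * Real.log (y l) = Real.log (∏ l, y l) := by
    rw [sum_comm, Real.log_prod fun l _ => (hy l).ne']
    exact sum_congr rfl fun l _ => by rw [← sum_mul, hc, one_mul]
  rw [sum_add_distrib, e3] at j3
  have j4 := sum_le_sum fun i (_ : i ∈ univ) => ulog (u i) v (hu0 i) (hu1 i) hv0 hv1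
  have e4 : ∑ i, (u i - v) = 0 := by
    rw [sum_sub_distrib, hsum, sum_const, card_univ, Fintype.card_fin, nsmul_eq_mul, hv]
    push_cast; field_simp; ring
  rw [sum_add_distrib, sum_add_distrib, e4, ← sum_mul, hsum] at j4
  have j5 : (u i0 - v) ^ 2 / 4 ≤ ∑ i, (u i - v) ^ 2 / 4 :=
    single_le_sum (f := fun i => (u i - v) ^ 2 / 4) (fun i _ => by positivity) (mem_univ i0)
  have e5 : (u i0 - v) ^ 2 = (A i0 0 - 1 / (m + 1)) ^ 2 := by
    simp only [hu, hv]; field_simp; ring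
  rw [e5] at j5
  have hp : 0 < ∏ l, y l := prod_pos fun l _ => hy l
  have hR : 0 < ∑ i, A i 0 * ∏ i' ∈ univ.erase i, s i' :=
    sum_pos (fun i _ => mul_pos (h0 _ _) (prod_pos fun i' _ => hs0 i')) univ_nonempty
  have hx : 0 < 1 + (A i0 0 - 1 / (m + 1)) ^ 2 / 4 := by positivity
  refine (Real.log_le_log_iff (by positivity) hR).1 ?_
  rw [Real.log_mul (by positivity) hp.ne', Real.log_mul (by positivity) hx.ne', Real.log_pow]
  have j6 := Real.log_le_sub_one_of_pos hx
  linarith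

open MvPolynomial

noncomputable def pA {n : ℕ} (A : Matrix (Fin n) (Fin n) ℝ) : MvPolynomial (Fin n) ℂ :=
  ∏ i, ∑ j, C (A i j : ℂ) * X j

theorem pA_hom {n : ℕ} (A : Matrix (Fin n) (Fin n) ℝ) : (pA A).IsHomogeneous n := by
  have := IsHomogeneous.prod univ (fun i : Fin n => ∑ j, C (A i j : ℂ) * X j) (fun _ => 1)
    fun i _ => IsHomogeneous.sum _ _ _ fun j _ => isHomogeneous_C_mul_X _ _
  simpa [pA] using this

theorem pA_eval {n : ℕ} (A : Matrix (Fin n) (Fin n) ℝ) (z : Fin n → ℂ) :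
    eval z (pA A) = ∏ i, ∑ j, (A i j : ℂ) * z j := by simp [pA]

theorem pA_st {n : ℕ} (A : Matrix (Fin n) (Fin n) ℝ) (h0 : ∀ i j, 0 < A i j) : St (pA A) := by
  intro z h1 ⟨j, hj⟩
  rw [pA_eval]
  refine prod_ne_zero_iff.2 fun i _ h => ?_
  have : 0 < (∑ j, (A i j : ℂ) * z j).re := by
    rw [Complex.re_sum]
    refine sum_pos' (fun j _ => ?_) ⟨j, mem_univ _, ?_⟩
    · simpa using mul_nonneg (h0 i j).le (h1 j)
    · simpa using mul_pos (h0 i j) hj
  rw [h] at this
  simp at this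

theorem pA_coeff {n : ℕ} (A : Matrix (Fin n) (Fin n) ℝ) :
    coeff (ones n) (pA A) = (A.permanent : ℝ) := by
  have e1 : pA A = ∑ f : Fin n → Fin n,
      monomial (∑ i, Finsupp.single (f i) 1) (∏ i, (A i (f i) : ℂ)) := by
    rw [pA, prod_univ_sum, Fintype.piFinset_univ]
    refine sum_congr rfl fun f _ => ?_
    rw [prod_mul_distrib, ← map_prod, monomial_sum_index]
    rfl
  rw [e1, coeff_sum, per_eq]
  simp only [coeff_monomial]
  rw [← sum_filter]
  push_cast
  symm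
  refine sum_bij (fun σ _ => (σ : Fin n → Fin n)) (fun σ _ => ?_) (fun σ _ τ _ h => ?_)
    (fun f hf => ?_) fun σ _ => rfl
  · rw [mem_filter]
    refine ⟨mem_univ _, ?_⟩
    rw [Equiv.sum_comp σ fun j => Finsupp.single j 1]
    ext j
    simp [ones, Finsupp.finsetSum_apply, Finsupp.single_apply]
  · exact DFunLike.coe_injective h
  · have h := (mem_filter.1 hf).2
    have hs : Function.Surjective f := by
      intro j
      by_contra hj
      push Not at hj
      have := DFunLike.congr_fun h j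
      simp [ones, Finsupp.finsetSum_apply, hj] at this
    exact ⟨Equiv.ofBijective f (Finite.surjective_iff_bijective.1 hs), mem_univ _, rfl⟩

theorem pA_D {m : ℕ} (A : Matrix (Fin (m + 1)) (Fin (m + 1)) ℝ) (y : Fin m → ℝ) :
    eval (fun j => (y j : ℂ)) (D (pA A))
      = ((∑ i, A i 0 * ∏ i' ∈ univ.erase i, ∑ l : Fin m, A i' l.succ * y l : ℝ) : ℂ) := by
  rw [← Q_coeff]
  have e : Q (pA A) (fun j => (y j : ℂ)) = ∏ i, (Polynomial.C (A i 0 : ℂ) * Polynomial.X
      + Polynomial.C (∑ l : Fin m, (A i l.succ : ℂ) * y l)) := by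
    refine Polynomial.funext fun t => ?_
    rw [Q_eval, pA_eval, Polynomial.eval_prod]
    refine prod_congr rfl fun i _ => ?_
    rw [Fin.sum_univ_succ]
    simp only [Fin.cons_zero, Fin.cons_succ, Polynomial.eval_add, Polynomial.eval_mul,
      Polynomial.eval_C, Polynomial.eval_X]
  have e2 : ∀ q : Polynomial ℂ, q.coeff 1 = q.derivative.eval 0 := fun q => by
    rw [← Polynomial.coeff_zero_eq_eval_zero, Polynomial.coeff_derivative]; simp
  rw [e, e2, Polynomial.derivative_prod_finset, Polynomial.eval_finsetSum]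
  push_cast
  refine sum_congr rfl fun i _ => ?_
  rw [Polynomial.eval_mul, Polynomial.eval_prod, mul_comm]
  simp only [Polynomial.derivative_add, Polynomial.derivative_C_mul_X, Polynomial.derivative_C,
    add_zero, Polynomial.eval_C, Polynomial.eval_add, Polynomial.eval_mul, Polynomial.eval_X,
    mul_zero, zero_add]

noncomputable def W (n : ℕ) : ℝ := n.factorial / (n : ℝ) ^ n

theorem W_pos (n : ℕ) : 0 < W n := by
  rcases Nat.eq_zero_or_pos n with rfl | h
  · simp [W]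
  · unfold W; positivity

theorem vdw_pos {m : ℕ} (hm : 1 ≤ m) (A : Matrix (Fin (m + 1)) (Fin (m + 1)) ℝ)
    (h0 : ∀ i j, 0 < A i j) (hr : ∀ i, ∑ j, A i j = 1) (hc : ∀ j, ∑ i, A i j = 1)
    (i0 : Fin (m + 1)) :
    W (m + 1) * (1 + (A i0 0 - 1 / (m + 1)) ^ 2 / 4) ≤ A.permanent := by
  have h := gur m (D (pA A)) (D_hom (pA_hom A)) (D_st (pA_hom A) (pA_st A h0)) _ fun y hy => by
    rw [pA_D, Complex.norm_real]
    exact (cap_first hm A h0 hr hc i0 y hy).trans (le_abs_self _)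
  have hp : 0 ≤ A.permanent := by
    rw [per_eq]; exact sum_nonneg fun σ _ => prod_nonneg fun i _ => (h0 _ _).le
  rw [coeff_D, pA_coeff, Complex.norm_real, Real.norm_of_nonneg hp] at h
  refine le_trans (le_of_eq ?_) h
  have hm' : (0 : ℝ) < m := by exact_mod_cast hm
  rw [W, div_pow, Nat.factorial_succ, pow_succ]
  push_cast
  field_simp

theorem per_cont {ι : Type*} [Fintype ι] [DecidableEq ι] :
    Continuous fun M : Matrix ι ι ℝ => M.permanent := by
  simp only [per_eq]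
  fun_prop

theorem vdw_fin {m : ℕ} (A : Matrix (Fin (m + 1)) (Fin (m + 1)) ℝ)
    (h0 : ∀ i j, 0 ≤ A i j) (hr : ∀ i, ∑ j, A i j = 1) (hc : ∀ j, ∑ i, A i j = 1)
    (i0 : Fin (m + 1)) :
    W (m + 1) * (1 + (A i0 0 - 1 / (m + 1)) ^ 2 / 4) ≤ A.permanent := by
  rcases Nat.eq_zero_or_pos m with rfl | hm
  · have h1 := hc 0
    have e : i0 = 0 := Subsingleton.elim (α := Fin 1) _ _
    have h2 : A 0 0 = 1 := (Fin.sum_univ_one fun i => A i 0).symm.trans h1
    rw [Matrix.permanent_eq_elem_of_card_eq_one (by simp) 0, e, h2]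
    simp [W]
  set F : ℝ → Matrix (Fin (m + 1)) (Fin (m + 1)) ℝ :=
    fun ε => Matrix.of fun i j => (1 - ε) * A i j + ε / (m + 1) with hF
  have hFc : Continuous F := by
    refine continuous_pi fun i => continuous_pi fun j => ?_
    simp only [hF, Matrix.of_apply]
    fun_prop
  have hcl : IsClosed {ε : ℝ | W (m + 1) * (1 + (F ε i0 0 - 1 / (m + 1)) ^ 2 / 4) ≤ (F ε).permanent} :=
    isClosed_le (by simp only [hF, Matrix.of_apply]; fun_prop) (per_cont.comp hFc)
  have hsub : Set.Ioc (0 : ℝ) 1 ⊆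
      {ε : ℝ | W (m + 1) * (1 + (F ε i0 0 - 1 / (m + 1)) ^ 2 / 4) ≤ (F ε).permanent} := by
    intro ε hε
    refine vdw_pos hm (F ε) (fun i j => ?_) (fun i => ?_) (fun j => ?_) i0
    · have a1 := mul_nonneg (sub_nonneg.2 hε.2) (h0 i j)
      have a2 : 0 < ε / (m + 1) := div_pos hε.1 (by positivity)
      simp only [hF, Matrix.of_apply]; linarith
    · simp only [hF, Matrix.of_apply, sum_add_distrib, ← mul_sum, hr, sum_const, card_univ,
        Fintype.card_fin, nsmul_eq_mul]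
      push_cast; field_simp; ring
    · simp only [hF, Matrix.of_apply, sum_add_distrib, ← mul_sum, hc, sum_const, card_univ,
        Fintype.card_fin, nsmul_eq_mul]
      push_cast; field_simp; ring
  have h1 := hcl.closure_subset_iff.2 hsub (by rw [closure_Ioc zero_ne_one]; simp : (0 : ℝ) ∈ _)
  have e : F 0 = A := by ext i j; simp [hF]
  simpa only [Set.mem_ofPred_eq, e] using h1

theorem per_reindex {ι κ : Type*} [Fintype ι] [DecidableEq ι] [Fintype κ] [DecidableEq κ]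
    (M : Matrix ι ι ℝ) (e : κ ≃ ι) : (M.submatrix e e).permanent = M.permanent := by
  rw [per_eq, per_eq]
  refine Fintype.sum_equiv e.permCongr _ _ fun σ => Fintype.prod_equiv e _ _ fun i => by simp

theorem vdw {ι : Type*} [Fintype ι] [DecidableEq ι] (A : Matrix ι ι ℝ)
    (h0 : ∀ i j, 0 ≤ A i j) (hr : ∀ i, ∑ j, A i j = 1) (hc : ∀ j, ∑ i, A i j = 1) (i0 j0 : ι) :
    W (Fintype.card ι) * (1 + (A i0 j0 - 1 / Fintype.card ι) ^ 2 / 4) ≤ A.permanent := by
  obtain ⟨m, hm⟩ : ∃ m, Fintype.card ι = m + 1 :=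
    Nat.exists_eq_succ_of_ne_zero (Fintype.card_pos_iff.2 ⟨i0⟩).ne'
  let e0 : Fin (m + 1) ≃ ι := (Fintype.equivFinOfCardEq hm).symm
  let e : Fin (m + 1) ≃ ι := e0.trans (Equiv.swap (e0 0) j0)
  have he : e 0 = j0 := by simp [e]
  have h := vdw_fin (A.submatrix e e) (fun i j => h0 _ _)
    (fun i => (e.sum_comp fun j => A (e i) j).trans (hr _))
    (fun j => (e.sum_comp fun i => A i (e j)).trans (hc _)) (e.symm i0)
  rw [per_reindex, Matrix.submatrix_apply, he, e.apply_symm_apply] at h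
  rw [hm]
  push_cast
  exact h

theorem vdw0 {ι : Type*} [Fintype ι] [DecidableEq ι] (A : Matrix ι ι ℝ)
    (h0 : ∀ i j, 0 ≤ A i j) (hr : ∀ i, ∑ j, A i j = 1) (hc : ∀ j, ∑ i, A i j = 1) :
    W (Fintype.card ι) ≤ A.permanent := by
  rcases isEmpty_or_nonempty ι with h | ⟨⟨i⟩⟩
  · simp [W, Matrix.permanent_isEmpty]
  · refine le_trans ?_ (vdw A h0 hr hc i i)
    exact le_mul_of_one_le_right (W_pos _).le (le_add_of_nonneg_right (by positivity))

end Pool.Agent.H.MP_2b959d_co
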