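import Pool.Agent.H.MP_2b959d_co.B

set_option autoImplicit false
open Finset

namespace Pool.Agent.H.MP_2b959d_co

variable {ι κ : Type} [Fintype ι] [DecidableEq ι] [Fintype κ] [DecidableEq κ]

def sz (cls : ι → κ) (b : κ) : ℕ := Fintype.card {x // cls x = b}

noncomputable def rho (cls : ι → κ) : ℝ := ∏ b, W (sz cls b)

omit [DecidableEq ι] in
theorem rho_pos (cls : ι → κ) : 0 < rho cls := prod_pos fun _ _ => W_pos _

omit [DecidableEq ι] [Fintype κ] in
theorem sz_pos (cls : ι → κ) (y : ι) : 0 < sz cls (cls y) := Fintype.card_pos_iff.2 ⟨⟨y, rfl⟩⟩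

omit [DecidableEq ι] [Fintype κ] in
theorem sz_sum (cls : ι → κ) (b : κ) : ∑ x, (if cls x = b then (1 : ℝ) else 0) = sz cls b := by
  rw [sum_boole, sz, Fintype.card_subtype]

theorem per_blocks (cls : ι → κ) (M : Matrix ι ι ℝ) (h0 : ∀ x y, 0 ≤ M x y) :
    ∏ b, (M.submatrix (Subtype.val : {x // cls x = b} → ι)
      (Subtype.val : {x // cls x = b} → ι)).permanent ≤ M.permanent := by
  simp only [per_eq]
  rw [prod_univ_sum, Fintype.piFinset_univ]
  have e : ∀ g : ∀ b, Equiv.Perm {x // cls x = b},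
      ∏ b, ∏ x : {x // cls x = b}, M.submatrix Subtype.val Subtype.val x (g b x)
        = ∏ x, M x (DomMulAct.stabilizerEquiv_invFun_aux g x) := by
    intro g
    rw [← Fintype.prod_fiberwise cls]
    refine prod_congr rfl fun b _ => prod_congr rfl fun x _ => ?_
    show M x (g b x) = M x (DomMulAct.stabilizerEquiv_invFun g x)
    rw [DomMulAct.stabilizerEquiv_invFun_eq g x.2]
  simp only [e]
  have hinj : Function.Injective
      (DomMulAct.stabilizerEquiv_invFun_aux : (∀ b, Equiv.Perm {x // cls x = b}) → Equiv.Perm ι) := by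
    intro g g' h
    funext b
    ext x
    have := DFunLike.congr_fun h x.1
    rw [← DomMulAct.stabilizerEquiv_invFun_eq g x.2, ← DomMulAct.stabilizerEquiv_invFun_eq g' x.2]
    exact this
  rw [← sum_image (f := fun σ : Equiv.Perm ι => ∏ x, M x (σ x)) fun g _ g' _ h => hinj h]
  exact sum_le_sum_of_subset_of_nonneg (subset_univ _) fun σ _ _ => prod_nonneg fun x _ => h0 _ _

theorem LB0 (cls : ι → κ) (M : Matrix ι ι ℝ) (h0 : ∀ x y, 0 ≤ M x y)
    (hr : ∀ x, ∑ y, M x y = 1) (hc : ∀ y, ∑ x, M x y = 1)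
    (hs : ∀ x y, cls y ≠ cls x → M x y = 0) :
    rho cls ≤ M.permanent ∧ ∀ x0 y0, cls y0 = cls x0 →
      rho cls * (1 + (M x0 y0 - 1 / sz cls (cls y0)) ^ 2 / 4) ≤ M.permanent := by
  have r : ∀ b (x : {x // cls x = b}), ∑ y : {x // cls x = b}, M x y = 1 := by
    intro b x
    rw [← hr x, ← sum_subtype (univ.filter fun y => cls y = b) (by simp) fun y => M x y]
    refine sum_subset (filter_subset _ _) fun y _ hy => hs _ _ ?_
    rw [x.2]; simpa using hy
  have c : ∀ b (y : {x // cls x = b}), ∑ x : {x // cls x = b}, M x y = 1 := by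
    intro b y
    rw [← hc y, ← sum_subtype (univ.filter fun y => cls y = b) (by simp) fun x => M x y]
    refine sum_subset (filter_subset _ _) fun x _ hx => hs _ _ ?_
    rw [y.2]; exact fun h => hx (by simp [h])
  have v0 : ∀ b, W (sz cls b) ≤ (M.submatrix (Subtype.val : {x // cls x = b} → ι)
      (Subtype.val : {x // cls x = b} → ι)).permanent :=
    fun b => vdw0 _ (fun _ _ => h0 _ _) (r b) (c b)
  refine ⟨(prod_le_prod (fun b _ => (W_pos _).le) fun b _ => v0 b).trans (per_blocks cls M h0), ?_⟩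
  intro x0 y0 h
  refine le_trans ?_ (per_blocks cls M h0)
  have v1 := vdw (M.submatrix (Subtype.val : {x // cls x = cls y0} → ι)
    (Subtype.val : {x // cls x = cls y0} → ι)) (fun _ _ => h0 _ _) (r _) (c _) ⟨x0, h.symm⟩ ⟨y0, rfl⟩
  rw [rho, ← mul_prod_erase _ _ (mem_univ (cls y0)), ← mul_prod_erase _ _ (mem_univ (cls y0)),
    mul_right_comm]
  exact mul_le_mul v1 (prod_le_prod (fun b _ => (W_pos _).le) fun b _ => v0 b)
    (prod_nonneg fun b _ => (W_pos _).le) ((W_pos _).le.trans (v0 _))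

theorem LB (cls : ι → κ) (π : Equiv.Perm ι) (M : Matrix ι ι ℝ) (h0 : ∀ x y, 0 ≤ M x y)
    (hr : ∀ x, ∑ y, M x y = 1) (hc : ∀ y, ∑ x, M x y = 1)
    (hs : ∀ x y, cls y ≠ cls (π x) → M x y = 0) :
    rho cls ≤ M.permanent ∧ ∀ x0 y0, cls y0 = cls (π x0) →
      rho cls * (1 + (M x0 y0 - 1 / sz cls (cls y0)) ^ 2 / 4) ≤ M.permanent := by
  have h := LB0 cls (M.submatrix π.symm id) (fun _ _ => h0 _ _) (fun x => hr _)
    (fun y => (π.symm.sum_comp fun x => M x y).trans (hc y))
    (fun x y h => hs _ _ (by simpa using h))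
  rw [Matrix.permanent_permute_cols] at h
  refine ⟨h.1, fun x0 y0 e => ?_⟩
  simpa using h.2 (π x0) y0 e

noncomputable def Em (cls : ι → κ) : Matrix ι ι ℝ :=
  Matrix.of fun z y => if cls z = cls y then 1 / (sz cls (cls y) : ℝ) else 0

noncomputable def ind (cls : ι → κ) (b : κ) : ι → ℝ := fun z => if cls z = b then 1 else 0

omit [DecidableEq ι] [Fintype κ] in
theorem mul_Em (cls : ι → κ) (B : Matrix ι ι ℝ) (x y : ι) :
    (B * Em cls) x y = B.mulVec (ind cls (cls y)) x / sz cls (cls y) := by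
  simp only [Matrix.mul_apply, Matrix.mulVec, dotProduct, Em, ind, Matrix.of_apply, sum_div]
  refine sum_congr rfl fun z _ => ?_
  split_ifs <;> ring

omit [DecidableEq ι] in
theorem sum_ind (cls : ι → κ) (B : Matrix ι ι ℝ) (x : ι) :
    ∑ b, B.mulVec (ind cls b) x = ∑ y, B x y := by
  simp only [Matrix.mulVec, dotProduct, ind]
  rw [sum_comm]
  exact sum_congr rfl fun y _ => by simp

omit [DecidableEq ι] [Fintype κ] in
theorem mulVec_ind_nonneg (cls : ι → κ) (B : Matrix ι ι ℝ) (h0 : ∀ x y, 0 ≤ B x y) (b : κ) (x : ι) :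
    0 ≤ B.mulVec (ind cls b) x :=
  sum_nonneg fun y _ => mul_nonneg (h0 _ _) (by unfold ind; split_ifs <;> norm_num)

theorem UB (cls : ι → κ) (B : Matrix ι ι ℝ) (h0 : ∀ x y, 0 ≤ B x y) (hr : ∀ x, ∑ y, B x y = 1)
    (x0 : ι) (M : ℝ) (hM : ∀ b, B.mulVec (ind cls b) x0 ≤ M) :
    (B * Em cls).permanent ≤ rho cls * M := by
  set m : ι → κ → ℝ := fun x b => B.mulVec (ind cls b) x with hm
  have hm0 : ∀ x b, 0 ≤ m x b := fun x b => mulVec_ind_nonneg cls B h0 b x
  have hM0 : 0 ≤ M := (hm0 x0 (cls x0)).trans (hM _)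
  set P : ℝ := ∏ y, (sz cls (cls y) : ℝ) with hP
  have hP0 : 0 < P := prod_pos fun y _ => by exact_mod_cast sz_pos cls y
  have hP' : P = ∏ b, (sz cls b : ℝ) ^ sz cls b := by
    rw [hP, ← Fintype.prod_fiberwise' cls fun b => (sz cls b : ℝ)]
    exact prod_congr rfl fun b _ => by rw [prod_const, card_univ]; rfl
  set N0 : ℕ := ∏ b, (sz cls b).factorial with hN0
  have hrho : rho cls = N0 / P := by
    rw [hP', hN0, rho]; push_cast; rw [← prod_div_distrib]; rfl
  set m' : ι → κ → ℝ := fun x b => if x = x0 then (if b = cls x0 then 1 else 0) else m x b with hm'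
  have hm'0 : ∀ x b, 0 ≤ m' x b := fun x b => by
    simp only [hm']; split_ifs
    · exact zero_le_one
    · exact le_rfl
    · exact hm0 _ _
  have hm'1 : ∀ x, ∑ b, m' x b = 1 := fun x => by
    simp only [hm']; split_ifs
    · simp
    · exact (sum_ind cls B x).trans (hr x)
  set G : Equiv.Perm ι → ι → κ := fun σ => Function.update (fun x => cls (σ x)) x0 (cls x0) with hG
  have t1 : ∀ σ : Equiv.Perm ι, ∏ x, (B * Em cls) x (σ x) ≤ M / P * ∏ x, m' x (G σ x) := by
    intro σ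
    simp only [mul_Em]
    rw [prod_div_distrib, Equiv.prod_comp σ fun y => (sz cls (cls y) : ℝ), ← hP, div_mul_eq_mul_div]
    refine div_le_div_of_nonneg_right ?_ hP0.le
    rw [← mul_prod_erase _ _ (mem_univ x0), ← mul_prod_erase _ _ (mem_univ x0)]
    have e1 : m' x0 (G σ x0) = 1 := by simp [hm', hG]
    have e2 : ∏ x ∈ univ.erase x0, m' x (G σ x) = ∏ x ∈ univ.erase x0, m x (cls (σ x)) :=
      prod_congr rfl fun x hx => by simp [hm', hG, ne_of_mem_erase hx]
    rw [e1, e2, one_mul]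
    exact mul_le_mul_of_nonneg_right (hM _) (prod_nonneg fun x _ => hm0 _ _)
  have t2 : ∀ g : ι → κ, (univ.filter fun σ => G σ = g).card ≤ N0 := by
    intro g
    rcases (univ.filter fun σ => G σ = g).eq_empty_or_nonempty with h | ⟨σ0, h⟩
    · rw [h]; exact Nat.zero_le _
    have h1 := (mem_filter.1 h).2
    have hc : (univ.filter fun τ : Equiv.Perm ι => cls ∘ τ = cls).card = N0 := by
      rw [← Fintype.card_subtype]; exact DomMulAct.stabilizer_card cls
    rw [← hc]
    refine card_le_card_of_injOn (fun σ => σ * σ0⁻¹) (fun σ hσ => ?_)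
      fun σ _ τ _ e => mul_right_cancel e
    have h2 := (mem_filter.1 (mem_coe.1 hσ)).2
    have h3 : ∀ x, x ≠ x0 → cls (σ x) = cls (σ0 x) := fun x hx => by
      have := congrFun (h2.trans h1.symm) x
      simpa [hG, hx] using this
    have h4 : cls (σ x0) = cls (σ0 x0) := by
      have a1 := (Equiv.sum_comp σ fun y => if cls y = cls (σ x0) then (1 : ℝ) else 0).trans
        (Equiv.sum_comp σ0 fun y => if cls y = cls (σ x0) then (1 : ℝ) else 0).symm
      rw [← add_sum_erase _ _ (mem_univ x0), ← add_sum_erase _ _ (mem_univ x0),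
        sum_congr rfl fun x hx => by rw [h3 x (ne_of_mem_erase hx)], add_left_inj, if_pos rfl] at a1
      by_contra hne
      rw [if_neg (Ne.symm hne)] at a1
      exact one_ne_zero a1
    refine mem_coe.2 (mem_filter.2 ⟨mem_univ _, funext fun y => ?_⟩)
    have h5 : ∀ x, cls (σ x) = cls (σ0 x) := fun x => by
      by_cases hx : x = x0
      · rw [hx, h4]
      · exact h3 x hx
    simp [h5]
  have t3 : ∑ σ : Equiv.Perm ι, ∏ x, m' x (G σ x) ≤ N0 := by
    rw [← sum_fiberwise' univ G fun g => ∏ x, m' x (g x)]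
    have : ∑ g : ι → κ, ∏ x, m' x (g x) = 1 := by
      rw [← Fintype.piFinset_univ, ← prod_univ_sum]
      simp [hm'1]
    calc ∑ g : ι → κ, ∑ _σ ∈ univ.filter fun σ => G σ = g, ∏ x, m' x (g x)
        ≤ ∑ g : ι → κ, (N0 : ℝ) * ∏ x, m' x (g x) := sum_le_sum fun g _ => by
          rw [sum_const, nsmul_eq_mul]
          exact mul_le_mul_of_nonneg_right (by exact_mod_cast t2 g) (prod_nonneg fun x _ => hm'0 _ _)
      _ = N0 := by rw [← mul_sum, this, mul_one]
  rw [per_eq, hrho]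
  refine (sum_le_sum fun σ _ => t1 σ).trans ?_
  rw [← mul_sum]
  refine (mul_le_mul_of_nonneg_left t3 (by positivity)).trans (le_of_eq ?_)
  ring

omit [Fintype ι] in
theorem prod_lip (s : Finset ι) (a b : ι → ℝ) (ha : ∀ i, 0 ≤ a i ∧ a i ≤ 1)
    (hb : ∀ i, 0 ≤ b i ∧ b i ≤ 1) : ∏ i ∈ s, a i ≤ ∏ i ∈ s, b i + ∑ i ∈ s, |a i - b i| := by
  induction s using Finset.induction_on with
  | empty => simp
  | insert i s hi ih =>
    rw [prod_insert hi, prod_insert hi, sum_insert hi]
    have p0 : 0 ≤ ∏ i ∈ s, b i := prod_nonneg fun i _ => (hb i).1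
    have p1 : ∏ i ∈ s, b i ≤ 1 := prod_le_one (fun i _ => (hb i).1) fun i _ => (hb i).2
    have p2 : 0 ≤ ∑ i ∈ s, |a i - b i| := sum_nonneg fun i _ => abs_nonneg _
    have p3 := mul_le_mul_of_nonneg_left ih (ha i).1
    have p4 := mul_le_mul_of_nonneg_right (le_abs_self (a i - b i)) p0
    have p5 := mul_le_mul_of_nonneg_left p1 (abs_nonneg (a i - b i))
    have p6 := mul_le_mul_of_nonneg_right (ha i).2 p2
    nlinarith

noncomputable def n1 (M : Matrix ι ι ℝ) : ℝ := ∑ x, ∑ y, |M x y|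

theorem per_lip (M N : Matrix ι ι ℝ) (hM : ∀ x y, 0 ≤ M x y ∧ M x y ≤ 1)
    (hN : ∀ x y, 0 ≤ N x y ∧ N x y ≤ 1) :
    M.permanent ≤ N.permanent + (Fintype.card ι).factorial * n1 (M - N) := by
  rw [per_eq, per_eq, ← Fintype.card_perm, ← nsmul_eq_mul, ← card_univ, ← sum_const,
    ← sum_add_distrib]
  refine sum_le_sum fun σ _ => (prod_lip univ _ _ (fun x => hM x (σ x)) fun x => hN x (σ x)).trans ?_
  refine add_le_add le_rfl (sum_le_sum fun x _ => ?_)
  exact single_le_sum (f := fun y => |(M - N) x y|) (fun _ _ => abs_nonneg _) (mem_univ (σ x))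

omit [DecidableEq ι] in
theorem n1_nonneg (M : Matrix ι ι ℝ) : 0 ≤ n1 M :=
  sum_nonneg fun _ _ => sum_nonneg fun _ _ => abs_nonneg _

omit [DecidableEq ι] in
theorem n1_entry (M : Matrix ι ι ℝ) (x y : ι) : |M x y| ≤ n1 M :=
  (single_le_sum (f := fun y => |M x y|) (fun _ _ => abs_nonneg _) (mem_univ y)).trans
    (single_le_sum (f := fun x => ∑ y, |M x y|) (fun _ _ => sum_nonneg fun _ _ => abs_nonneg _)
      (mem_univ x))

omit [DecidableEq ι] in
theorem n1_add (M N : Matrix ι ι ℝ) : n1 (M + N) ≤ n1 M + n1 N := by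
  simp only [n1, ← sum_add_distrib]
  exact sum_le_sum fun x _ => sum_le_sum fun y _ => abs_add_le _ _

omit [DecidableEq ι] in
theorem n1_sub (M N : Matrix ι ι ℝ) : n1 (M - N) ≤ n1 M + n1 N := by
  simp only [n1, ← sum_add_distrib]
  exact sum_le_sum fun x _ => sum_le_sum fun y _ => abs_sub _ _

omit [DecidableEq ι] in
theorem n1_left (S M : Matrix ι ι ℝ) (c : ℝ) (h : ∀ z, ∑ x, |S x z| ≤ c) :
    n1 (S * M) ≤ c * n1 M := by
  calc n1 (S * M) ≤ ∑ x, ∑ y, ∑ z, |S x z| * |M z y| :=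
        sum_le_sum fun x _ => sum_le_sum fun y _ => by
          rw [Matrix.mul_apply]
          exact (abs_sum_le_sum_abs _ _).trans (le_of_eq (sum_congr rfl fun z _ => abs_mul _ _))
    _ = ∑ z, ∑ y, (∑ x, |S x z|) * |M z y| := by
        rw [sum_comm]
        simp only [sum_mul]
        rw [sum_comm (s := univ) (t := univ) (f := fun z y => ∑ x, |S x z| * |M z y|)]
        exact sum_congr rfl fun y _ => sum_comm
    _ ≤ ∑ z, ∑ y, c * |M z y| := sum_le_sum fun z _ => sum_le_sum fun y _ =>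
        mul_le_mul_of_nonneg_right (h z) (abs_nonneg _)
    _ = c * n1 M := by simp only [n1, mul_sum]

omit [DecidableEq ι] in
theorem n1_transpose (M : Matrix ι ι ℝ) : n1 M.transpose = n1 M := sum_comm

omit [DecidableEq ι] in
theorem n1_right (M S : Matrix ι ι ℝ) (c : ℝ) (h : ∀ z, ∑ y, |S z y| ≤ c) :
    n1 (M * S) ≤ c * n1 M := by
  rw [← n1_transpose, Matrix.transpose_mul, ← n1_transpose M]
  exact n1_left _ _ c h

omit [DecidableEq ι] in
theorem n1_mul (M N : Matrix ι ι ℝ) : n1 (M * N) ≤ n1 M * n1 N :=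
  n1_left M N _ fun z => sum_le_sum fun x _ =>
    single_le_sum (f := fun y => |M x y|) (fun _ _ => abs_nonneg _) (mem_univ z)

end Pool.Agent.H.MP_2b959d_co
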