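import Pool.Agent.H.MP_2b959d_co.C

set_option autoImplicit false
open Finset Filter Topology

namespace Pool.Agent.H.MP_2b959d_co

variable {ι : Type} [Fintype ι] [DecidableEq ι]

def NN (h : ι → ℝ) : ℝ := ∑ x, h x ^ 2

omit [DecidableEq ι] in
theorem var_row (w h : ι → ℝ) (h1 : ∑ y, w y = 1) :
    ∑ y, w y * h y ^ 2 - (∑ y, w y * h y) ^ 2 = (∑ y, ∑ y', w y * w y' * (h y - h y') ^ 2) / 2 := by
  have e : ∀ y y', w y * w y' * (h y - h y') ^ 2
      = w y * h y ^ 2 * w y' + w y * (w y' * h y' ^ 2) - 2 * (w y * h y * (w y' * h y')) :=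
    fun y y' => by ring
  simp only [e, sum_add_distrib, sum_sub_distrib, ← mul_sum, ← sum_mul, h1]
  ring

theorem var_id {A : Matrix ι ι ℝ} (hA : A ∈ doublyStochastic ℝ ι) (h : ι → ℝ) :
    NN h - NN (A.mulVec h) = (∑ x, ∑ y, ∑ y', A x y * A x y' * (h y - h y') ^ 2) / 2 := by
  have e1 : NN h = ∑ x, ∑ y, A x y * h y ^ 2 := by
    rw [sum_comm]
    exact sum_congr rfl fun y _ => by rw [← sum_mul, sum_col_of_mem_doublyStochastic hA, one_mul]
  rw [e1, NN, ← sum_sub_distrib, sum_div]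
  exact sum_congr rfl fun x _ => var_row (A x) h (sum_row_of_mem_doublyStochastic hA x)

theorem NN_le {A : Matrix ι ι ℝ} (hA : A ∈ doublyStochastic ℝ ι) (h : ι → ℝ) :
    NN (A.mulVec h) ≤ NN h := by
  have := var_id hA h
  have h0 : 0 ≤ ∑ x, ∑ y, ∑ y', A x y * A x y' * (h y - h y') ^ 2 :=
    sum_nonneg fun x _ => sum_nonneg fun y _ => sum_nonneg fun y' _ =>
      mul_nonneg (mul_nonneg (nonneg_of_mem_doublyStochastic hA) (nonneg_of_mem_doublyStochastic hA))
        (sq_nonneg _)
  linarith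

theorem NN_eq {A : Matrix ι ι ℝ} (hA : A ∈ doublyStochastic ℝ ι) (h : ι → ℝ)
    (e : NN (A.mulVec h) = NN h) (x y : ι) (hy : A x y ≠ 0) : A.mulVec h x = h y := by
  have h1 := var_id hA h
  have t0 : ∀ x y y', 0 ≤ A x y * A x y' * (h y - h y') ^ 2 := fun x y y' =>
    mul_nonneg (mul_nonneg (nonneg_of_mem_doublyStochastic hA) (nonneg_of_mem_doublyStochastic hA))
      (sq_nonneg _)
  have h2 : ∑ x, ∑ y, ∑ y', A x y * A x y' * (h y - h y') ^ 2 = 0 := by linarith
  have h3 := (sum_eq_zero_iff_of_nonneg fun x _ => sum_nonneg fun y _ => sum_nonneg fun y' _ =>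
    t0 x y y').1 h2 x (mem_univ _)
  have h4 := (sum_eq_zero_iff_of_nonneg fun y _ => sum_nonneg fun y' _ => t0 x y y').1 h3 y
    (mem_univ _)
  have h5 := (sum_eq_zero_iff_of_nonneg fun y' _ => t0 x y y').1 h4
  have h6 : ∀ y', A x y' * h y' = A x y' * h y := by
    intro y'
    rcases mul_eq_zero.1 (h5 y' (mem_univ _)) with h7 | h7
    · rw [(mul_eq_zero.1 h7).resolve_left hy]; ring
    · rw [sub_eq_zero.1 (pow_eq_zero_iff two_ne_zero |>.1 h7)]
  simp only [Matrix.mulVec, dotProduct, h6, ← sum_mul, sum_row_of_mem_doublyStochastic hA, one_mul]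

theorem struct {A : Matrix ι ι ℝ} (hA : A ∈ doublyStochastic ℝ ι) :
    ∃ (cls : ι → ι) (π : Equiv.Perm ι), (∀ x y, cls y ≠ cls (π x) → A x y = 0) ∧
      (∀ x y, cls (π x) = cls (π y) ↔ cls x = cls y) ∧
      ∀ δ : ℝ, 0 < δ → ∃ j : ℕ, n1 (A ^ j - A ^ j * Em cls) < δ := by
  let V : Set (ι → ℝ) := {f | ∀ t : ℕ, NN ((A ^ t).mulVec f) = NN f}
  have hV1 : ∀ f ∈ V, NN (A.mulVec f) = NN f := fun f hf => by simpa using hf 1
  have hV2 : ∀ f ∈ V, A.mulVec f ∈ V := fun f hf t => by
    rw [Matrix.mulVec_mulVec, ← pow_succ, hf, hV1 f hf]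
  let s : Setoid ι := ⟨fun x y => ∀ f ∈ V, f x = f y, fun _ _ _ => rfl,
    fun h f hf => (h f hf).symm, fun h h' f hf => (h f hf).trans (h' f hf)⟩
  let cls : ι → ι := fun x => Quotient.out (Quotient.mk s x)
  have hcls : ∀ x y, cls x = cls y ↔ ∀ f ∈ V, f x = f y := fun x y =>
    Quotient.out_inj.trans Quotient.eq
  have hcl : ∀ x y x' y', cls x = cls y → A x x' ≠ 0 → A y y' ≠ 0 → cls x' = cls y' := by
    intro x y x' y' h hx hy
    refine (hcls _ _).2 fun f hf => ?_
    rw [← NN_eq hA f (hV1 f hf) x x' hx, ← NN_eq hA f (hV1 f hf) y y' hy]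
    exact (hcls _ _).1 h _ (hV2 f hf)
  have hper : A.permanent ≠ 0 := ((W_pos _).trans_le (vdw0 A
    (fun _ _ => nonneg_of_mem_doublyStochastic hA) (sum_row_of_mem_doublyStochastic hA)
    (sum_col_of_mem_doublyStochastic hA))).ne'
  rw [per_eq] at hper
  obtain ⟨π, _, hπ⟩ := exists_ne_zero_of_sum_ne_zero hper
  have hπ' : ∀ x, A x (π x) ≠ 0 := fun x => prod_ne_zero_iff.1 hπ x (mem_univ _)
  have hs : ∀ x y, cls y ≠ cls (π x) → A x y = 0 := fun x y h => by
    by_contra h0
    exact h (hcl x x y (π x) rfl h0 (hπ' x))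
  have hf : ∀ x y, cls x = cls y → cls (π x) = cls (π y) := fun x y h =>
    hcl x y _ _ h (hπ' x) (hπ' y)
  have hft : ∀ (t : ℕ) x y, cls x = cls y → cls ((π ^ t) x) = cls ((π ^ t) y) := by
    intro t
    induction t with
    | zero => exact fun x y h => h
    | succ t ih => exact fun x y h => by rw [pow_succ']; exact hf _ _ (ih x y h)
  have hiff : ∀ x y, cls (π x) = cls (π y) ↔ cls x = cls y := fun x y => by
    refine ⟨fun h => ?_, hf x y⟩
    have h1 := hft (orderOf π - 1) _ _ h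
    have h2 : π ^ (orderOf π - 1) * π = 1 := by
      rw [← pow_succ, Nat.sub_add_cancel (orderOf_pos π), pow_orderOf_eq_one]
    rwa [← Equiv.Perm.mul_apply, ← Equiv.Perm.mul_apply, h2] at h1
  refine ⟨cls, π, hs, hiff, ?_⟩
  let Z : Set (ι → ℝ) := {u | ∀ x, ∑ z, ind cls (cls x) z * u z = 0}
  have hZ : ∀ u ∈ Z, A.mulVec u ∈ Z := by
    intro u hu x
    rw [← hu (π x)]
    simp only [Matrix.mulVec, dotProduct, mul_sum]
    rw [sum_comm]
    refine sum_congr rfl fun y _ => ?_
    have : ∀ z, ind cls (cls x) z * (A z y * u y) = A z y * (ind cls (cls (π x)) y * u y) := by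
      intro z
      by_cases h0 : A z y = 0
      · rw [h0]; ring
      have h1 : cls y = cls (π z) := by by_contra h; exact h0 (hs _ _ h)
      simp only [ind, h1, hiff]; ring
    simp only [this, ← sum_mul, sum_col_of_mem_doublyStochastic hA, one_mul]
  have hZt : ∀ u ∈ Z, ∀ t : ℕ, (A ^ t).mulVec u ∈ Z := by
    intro u hu t
    induction t with
    | zero => simpa using hu
    | succ t ih => rw [pow_succ', ← Matrix.mulVec_mulVec]; exact hZ _ ih
  have hNc : Continuous (NN : (ι → ℝ) → ℝ) := by unfold NN; fun_prop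
  have hZc : IsClosed Z := by
    have : Z = ⋂ x, {u : ι → ℝ | ∑ z, ind cls (cls x) z * u z = 0} := by ext u; simp [Z]
    rw [this]
    exact isClosed_iInter fun x => isClosed_eq (by fun_prop) continuous_const
  have hN0 : ∀ f : ι → ℝ, 0 ≤ NN f := fun f => sum_nonneg fun _ _ => sq_nonneg _
  have hNx : ∀ (f : ι → ℝ) x, f x ^ 2 ≤ NN f := fun f x =>
    single_le_sum (f := fun x => f x ^ 2) (fun _ _ => sq_nonneg _) (mem_univ x)
  have hlim : ∀ u ∈ Z, ∀ x, Tendsto (fun j : ℕ => |(A ^ j).mulVec u x|) atTop (𝓝 0) := by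
    intro u hu x
    have hanti : Antitone fun j : ℕ => NN ((A ^ j).mulVec u) :=
      antitone_nat_of_succ_le fun j => by
        rw [pow_succ', ← Matrix.mulVec_mulVec]; exact NN_le hA _
    have hT := tendsto_atTop_ciInf hanti ⟨0, by rintro _ ⟨j, rfl⟩; exact hN0 _⟩
    set L := ⨅ j : ℕ, NN ((A ^ j).mulVec u)
    have hK : IsCompact (Set.pi Set.univ fun _ : ι => Set.Icc (-(NN u + 1)) (NN u + 1)) :=
      isCompact_univ_pi fun _ => isCompact_Icc
    obtain ⟨v, _, φ, hφ, hv⟩ := hK.tendsto_subseq (x := fun j : ℕ => (A ^ j).mulVec u) fun j z _ => by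
      have a1 := hNx ((A ^ j).mulVec u) z
      have a2 : NN ((A ^ j).mulVec u) ≤ NN u := by simpa using hanti (Nat.zero_le j)
      constructor <;> nlinarith [sq_nonneg ((A ^ j).mulVec u z - 1), sq_nonneg ((A ^ j).mulVec u z + 1), hN0 u]
    have hvt : ∀ t : ℕ, NN ((A ^ t).mulVec v) = L := by
      intro t
      have c1 : Continuous fun f : ι → ℝ => NN ((A ^ t).mulVec f) :=
        hNc.comp (continuous_const.matrix_mulVec continuous_id)
      have a1 := (c1.tendsto v).comp hv
      have a2 := hT.comp ((tendsto_add_atTop_nat t).comp hφ.tendsto_atTop)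
      refine tendsto_nhds_unique a1 (a2.congr fun i => ?_)
      simp only [Function.comp, Matrix.mulVec_mulVec, ← pow_add, add_comm]
    have hv0 : NN v = L := by simpa using hvt 0
    have hvV : v ∈ V := fun t => (hvt t).trans hv0.symm
    have hvZ : v ∈ Z := hZc.mem_of_tendsto hv (Eventually.of_forall fun i => hZt u hu _)
    have hz : ∀ y, v y = 0 := by
      intro y
      have a1 := hvZ y
      have a2 : ∀ z, ind cls (cls y) z * v z = (if cls z = cls y then (1 : ℝ) else 0) * v y := by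
        intro z
        simp only [ind]
        split_ifs with h
        · rw [(hcls _ _).1 h v hvV]
        · ring
      simp only [a2, ← sum_mul, sz_sum] at a1
      exact (mul_eq_zero.1 a1).resolve_left (by exact_mod_cast (sz_pos cls y).ne')
    have hL : L = 0 := by rw [← hv0, NN]; simp [hz]
    rw [hL] at hT
    have hT2 := (Real.continuous_sqrt.tendsto 0).comp hT
    rw [Real.sqrt_zero] at hT2
    exact squeeze_zero (fun _ => abs_nonneg _) (fun j => Real.abs_le_sqrt (hNx _ x)) hT2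
  intro δ hδ
  have hcol : ∀ y, (fun z => (1 - Em cls) z y) ∈ Z := by
    intro y x
    simp only [Matrix.sub_apply, mul_sub, sum_sub_distrib, Matrix.one_apply, mul_ite, mul_one,
      mul_zero, sum_ite_eq', mem_univ, if_true]
    have : ∀ z, ind cls (cls x) z * Em cls z y
        = (if cls z = cls y then (1 : ℝ) else 0) * (ind cls (cls x) y / sz cls (cls y)) := by
      intro z
      simp only [ind, Em, Matrix.of_apply]
      by_cases h : cls z = cls y
      · simp only [h, if_true]; ring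
      · simp only [h, if_false]; ring
    have h0 : (sz cls (cls y) : ℝ) ≠ 0 := by exact_mod_cast (sz_pos cls y).ne'
    simp only [this, ← sum_mul, sz_sum]
    field_simp
    ring
  have hT : Tendsto (fun j : ℕ => n1 (A ^ j - A ^ j * Em cls)) atTop (𝓝 0) := by
    have := tendsto_finsetSum univ fun x _ => tendsto_finsetSum univ fun y _ => hlim _ (hcol y) x
    simp only [sum_const_zero] at this
    refine this.congr fun j => ?_
    have e : A ^ j - A ^ j * Em cls = A ^ j * (1 - Em cls) := by rw [mul_sub, mul_one]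
    rw [e]; rfl
  exact (hT.eventually (gt_mem_nhds hδ)).exists

end Pool.Agent.H.MP_2b959d_co
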