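import Pool.Agent.H.MP_2b959d_co.D

set_option autoImplicit false
open Finset Filter Topology

namespace Pool.Agent.H.MP_2b959d_co

variable {ι : Type} [Fintype ι] [DecidableEq ι] (cls : ι → ι) (π : Equiv.Perm ι)

noncomputable def As : Matrix ι ι ℝ :=
  Matrix.of fun x y => if cls (π x) = cls y then 1 / (sz cls (cls y) : ℝ) else 0

noncomputable def off (A : Matrix ι ι ℝ) (x y : ι) : ℝ := if cls (π x) = cls y then 0 else A x y

noncomputable def leak (A : Matrix ι ι ℝ) : ℝ := ∑ x, ∑ y, off cls π A x y

theorem As_mulVec (b x : ι) : (As cls π).mulVec (ind cls b) x = ind cls b (π x) := by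
  have : ∀ z, As cls π x z * ind cls b z
      = (if cls z = cls (π x) then (1 : ℝ) else 0) * (ind cls b (π x) / sz cls (cls (π x))) := by
    intro z
    simp only [ind, As, Matrix.of_apply]
    by_cases h : cls z = cls (π x)
    · simp only [h, if_true]; ring
    · simp only [h, Ne.symm h, if_false]; ring
  have h0 : (sz cls (cls (π x)) : ℝ) ≠ 0 := by exact_mod_cast (sz_pos cls _).ne'
  simp only [Matrix.mulVec, dotProduct, this, ← sum_mul, sz_sum]
  field_simp

theorem As_ds : As cls π ∈ doublyStochastic ℝ ι := by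
  refine mem_doublyStochastic_iff_sum.2 ⟨fun x y => ?_, fun x => ?_, fun y => ?_⟩
  · simp only [As, Matrix.of_apply]; split_ifs <;> positivity
  · have : ∀ z, As cls π x z
        = (if cls z = cls (π x) then (1 : ℝ) else 0) * (1 / sz cls (cls (π x))) := by
      intro z
      simp only [As, Matrix.of_apply]
      by_cases h : cls z = cls (π x)
      · simp only [h, if_true]; ring
      · simp only [h, Ne.symm h, if_false]; ring
    have h0 : (sz cls (cls (π x)) : ℝ) ≠ 0 := by exact_mod_cast (sz_pos cls _).ne'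
    simp only [this, ← sum_mul, sz_sum]
    field_simp
  · have : ∀ x, As cls π x y = (if cls (π x) = cls y then (1 : ℝ) else 0) * (1 / sz cls (cls y)) := by
      intro z
      simp only [As, Matrix.of_apply]
      split_ifs <;> ring
    have h0 : (sz cls (cls y) : ℝ) ≠ 0 := by exact_mod_cast (sz_pos cls _).ne'
    simp only [this, ← sum_mul]
    rw [Equiv.sum_comp π fun z => if cls z = cls y then (1 : ℝ) else 0, sz_sum]
    field_simp

theorem Em_ds : Em cls ∈ doublyStochastic ℝ ι := As_ds cls 1

theorem As_Em : As cls π * Em cls = As cls π := by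
  ext x y
  rw [mul_Em, As_mulVec]
  simp only [ind, As, Matrix.of_apply]
  split_ifs <;> ring

variable {A : Matrix ι ι ℝ}

theorem off_nonneg (hA : A ∈ doublyStochastic ℝ ι) (x y : ι) : 0 ≤ off cls π A x y := by
  unfold off; split_ifs
  · exact le_rfl
  · exact nonneg_of_mem_doublyStochastic hA

theorem leak_nonneg (hA : A ∈ doublyStochastic ℝ ι) : 0 ≤ leak cls π A :=
  sum_nonneg fun _ _ => sum_nonneg fun _ _ => off_nonneg cls π hA _ _

theorem leak_le : leak cls π A ≤ n1 (A - As cls π) :=
  sum_le_sum fun x _ => sum_le_sum fun y _ => by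
    simp only [off, As, Matrix.sub_apply, Matrix.of_apply]
    split_ifs
    · exact abs_nonneg _
    · rw [sub_zero]; exact le_abs_self _

theorem ds_abs_row {S : Matrix ι ι ℝ} (hS : S ∈ doublyStochastic ℝ ι) (z : ι) : ∑ y, |S z y| ≤ 1 := by
  rw [← sum_row_of_mem_doublyStochastic hS z]
  exact le_of_eq (sum_congr rfl fun y _ => abs_of_nonneg (nonneg_of_mem_doublyStochastic hS))

theorem ds_abs_col {S : Matrix ι ι ℝ} (hS : S ∈ doublyStochastic ℝ ι) (z : ι) : ∑ x, |S x z| ≤ 1 := by
  rw [← sum_col_of_mem_doublyStochastic hS z]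
  exact le_of_eq (sum_congr rfl fun y _ => abs_of_nonneg (nonneg_of_mem_doublyStochastic hS))

theorem n1_E (M : Matrix ι ι ℝ) : n1 (M - M * Em cls) ≤ 2 * n1 M := by
  have := n1_right M (Em cls) 1 (ds_abs_row (Em_ds cls))
  linarith [n1_sub M (M * Em cls)]

theorem n1_pow (hA : A ∈ doublyStochastic ℝ ι) {j k : ℕ} (h : j ≤ k) :
    n1 (A ^ k - A ^ k * Em cls) ≤ n1 (A ^ j - A ^ j * Em cls) := by
  obtain ⟨t, rfl⟩ := Nat.exists_eq_add_of_le' h
  have := n1_left (A ^ t) (A ^ j - A ^ j * Em cls) 1 (ds_abs_col (pow_mem hA t))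
  rwa [one_mul, mul_sub, ← mul_assoc, ← pow_add] at this

theorem AsX (hπ : ∀ x y, cls (π x) = cls (π y) ↔ cls x = cls y) (hA : A ∈ doublyStochastic ℝ ι) :
    n1 (As cls π * (A - As cls π)) ≤ 2 * Fintype.card ι * leak cls π A := by
  have key : ∀ x y, |(As cls π * (A - As cls π)) x y| ≤ 2 * ∑ z, off cls π A z y := by
    intro x y
    set c := ∑ z, off cls π A z y with hc
    have hc0 : 0 ≤ c := sum_nonneg fun _ _ => off_nonneg cls π hA _ _
    set on : ι → ℝ := fun z => if cls (π z) = cls y then (A - As cls π) z y else 0 with hon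
    have h1 : ∀ z, (A - As cls π) z y = on z + off cls π A z y := by
      intro z
      simp only [hon, off]
      split_ifs with h
      · ring
      · simp [As, h]
    have h2 : ∑ z, on z = -c := by
      have : ∑ z, (A - As cls π) z y = 0 := by
        simp only [Matrix.sub_apply, sum_sub_distrib, sum_col_of_mem_doublyStochastic hA,
          sum_col_of_mem_doublyStochastic (As_ds cls π), sub_self]
      simp only [h1, sum_add_distrib] at this
      linarith
    have h3 : |∑ z, As cls π x z * on z| ≤ c := by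
      by_cases h : cls (π (π x)) = cls y
      · have : ∀ z, As cls π x z * on z = 1 / (sz cls (cls (π x)) : ℝ) * on z := by
          intro z
          simp only [hon, As, Matrix.of_apply]
          by_cases hz : cls (π z) = cls y
          · have e : cls (π x) = cls z := (hπ _ _).1 (h.trans hz.symm)
            rw [if_pos e, e]
          · simp only [hz, if_false, mul_zero]
        simp only [this, ← mul_sum, h2, abs_mul, abs_neg, abs_of_nonneg hc0]
        refine mul_le_of_le_one_left hc0 ?_
        have : (1 : ℝ) ≤ sz cls (cls (π x)) := by exact_mod_cast sz_pos cls _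
        rw [abs_of_nonneg (by positivity), div_le_one (by positivity)]
        exact this
      · rw [sum_eq_zero, abs_zero]
        · exact hc0
        intro z _
        simp only [hon, As, Matrix.of_apply]
        by_cases hz : cls (π z) = cls y
        · rw [if_neg fun e => h (((hπ _ _).2 e).trans hz), zero_mul]
        · simp only [hz, if_false, mul_zero]
    have h4 : |∑ z, As cls π x z * off cls π A z y| ≤ c := by
      rw [abs_of_nonneg (sum_nonneg fun z _ => mul_nonneg
        (nonneg_of_mem_doublyStochastic (As_ds cls π)) (off_nonneg cls π hA _ _))]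
      exact sum_le_sum fun z _ => mul_le_of_le_one_left (off_nonneg cls π hA _ _)
        (le_one_of_mem_doublyStochastic (As_ds cls π))
    rw [Matrix.mul_apply]
    simp only [h1, mul_add, sum_add_distrib]
    linarith [abs_add_le (∑ z, As cls π x z * on z) (∑ z, As cls π x z * off cls π A z y)]
  refine (sum_le_sum fun x _ => sum_le_sum fun y _ => key x y).trans (le_of_eq ?_)
  rw [sum_const, card_univ, nsmul_eq_mul, ← mul_sum, leak, sum_comm]
  ring

theorem cube (hπ : ∀ x y, cls (π x) = cls (π y) ↔ cls x = cls y) (hA : A ∈ doublyStochastic ℝ ι)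
    (h1 : n1 (A - As cls π) ≤ 1) :
    n1 (A ^ 3 - A ^ 3 * Em cls) ≤ 8 * Fintype.card ι * leak cls π A + 2 * n1 (A - As cls π) ^ 3 := by
  set X := A - As cls π with hX
  set Y := As cls π * X with hY
  have e0 : A = As cls π + X := by rw [hX]; abel
  have e1 : A ^ 3 - A ^ 3 * Em cls
      = (A * Y + Y * X + X * X * X) - (A * Y + Y * X + X * X * X) * Em cls := by
    have a1 : A ^ 3 = A * A * As cls π + (A * Y + Y * X + X * X * X) := by
      have : ∀ S Z : Matrix ι ι ℝ, (S + Z) ^ 3
          = (S + Z) * (S + Z) * S + ((S + Z) * (S * Z) + S * Z * Z + Z * Z * Z) := by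
        intro S Z; noncomm_ring
      have h := this (As cls π) X
      rwa [← e0] at h
    rw [a1, add_mul, mul_assoc (A * A), As_Em]
    abel
  have b1 := AsX cls π hπ hA
  rw [← hX, ← hY] at b1
  have b2 := n1_left A Y 1 (ds_abs_col hA)
  have b3 := n1_mul Y X
  have b4 := n1_mul (X * X) X
  have b5 := n1_mul X X
  have b6 := n1_add (A * Y + Y * X) (X * X * X)
  have b7 := n1_add (A * Y) (Y * X)
  have b8 := n1_E cls (A * Y + Y * X + X * X * X)
  have b9 := mul_le_mul_of_nonneg_right b5 (n1_nonneg X)
  have b10 := mul_le_mul_of_nonneg_left h1 (n1_nonneg Y)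
  rw [e1]
  nlinarith

theorem round (hA : A ∈ doublyStochastic ℝ ι) : ∃ A' ∈ doublyStochastic ℝ ι,
    (∀ x y, cls y ≠ cls (π x) → A' x y = 0) ∧ n1 (A' - A) ≤ 2 * leak cls π A := by
  set r : ι → ℝ := fun x => ∑ y, off cls π A x y with hr
  set c : ι → ℝ := fun y => ∑ x, off cls π A x y with hc
  set T : ι → ℝ := fun b => ∑ y, ind cls b y * c y with hT
  have hr0 : ∀ x, 0 ≤ r x := fun x => sum_nonneg fun _ _ => off_nonneg cls π hA _ _
  have hc0 : ∀ x, 0 ≤ c x := fun x => sum_nonneg fun _ _ => off_nonneg cls π hA _ _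
  have hi0 : ∀ b y, 0 ≤ ind cls b y := fun b y => by unfold ind; split_ifs <;> norm_num
  have hT0 : ∀ b, 0 ≤ T b := fun b => sum_nonneg fun y _ => mul_nonneg (hi0 _ _) (hc0 _)
  have hT' : ∀ b, T b = ∑ x, ind cls b (π x) * r x := by
    intro b
    have a1 : ∀ x y, ind cls b y * off cls π A x y - ind cls b (π x) * off cls π A x y
        = ind cls b y * A x y - ind cls b (π x) * A x y := by
      intro x y
      simp only [off, ind]
      by_cases h : cls (π x) = cls y
      · simp [h]
      · simp [h]
    have a2 : ∑ x, ∑ y, (ind cls b y * A x y - ind cls b (π x) * A x y) = 0 := by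
      simp only [sum_sub_distrib]
      rw [sum_comm]
      simp only [← mul_sum, sum_col_of_mem_doublyStochastic hA, sum_row_of_mem_doublyStochastic hA,
        mul_one]
      rw [Equiv.sum_comp π (ind cls b), sub_self]
    simp only [← a1, sum_sub_distrib] at a2
    rw [sum_comm] at a2
    simp only [← mul_sum] at a2
    linarith
  have hrT : ∀ x, r x * (T (cls (π x)) / T (cls (π x))) = r x := by
    intro x
    by_cases h : T (cls (π x)) = 0
    · have : ind cls (cls (π x)) (π x) * r x ≤ T (cls (π x)) := by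
        rw [hT']
        exact single_le_sum (f := fun x' => ind cls (cls (π x)) (π x') * r x')
          (fun _ _ => mul_nonneg (hi0 _ _) (hr0 _)) (mem_univ x)
      simp only [ind, if_true, one_mul] at this
      rw [le_antisymm (h ▸ this) (hr0 x), zero_mul]
    · rw [div_self h, mul_one]
  have hcT : ∀ y, c y * (T (cls y) / T (cls y)) = c y := by
    intro y
    by_cases h : T (cls y) = 0
    · have : ind cls (cls y) y * c y ≤ T (cls y) :=
        single_le_sum (f := fun y' => ind cls (cls y) y' * c y')
          (fun _ _ => mul_nonneg (hi0 _ _) (hc0 _)) (mem_univ y)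
      simp only [ind, if_true, one_mul] at this
      rw [le_antisymm (h ▸ this) (hc0 y), zero_mul]
    · rw [div_self h, mul_one]
  set g : ι → ι → ℝ := fun x y => if cls (π x) = cls y then r x * c y / T (cls y) else 0 with hg
  have hg0 : ∀ x y, 0 ≤ g x y := fun x y => by
    simp only [hg]; split_ifs
    · exact div_nonneg (mul_nonneg (hr0 _) (hc0 _)) (hT0 _)
    · exact le_rfl
  have hgr : ∀ x, ∑ y, g x y = r x := by
    intro x
    rw [← hrT x]
    nth_rewrite 1 [hT]
    simp only [sum_div, mul_sum]
    refine sum_congr rfl fun y _ => ?_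
    simp only [hg, ind]
    by_cases h : cls (π x) = cls y
    · simp only [h, if_true]; ring
    · simp only [h, Ne.symm h, if_false]; ring
  have hgc : ∀ y, ∑ x, g x y = c y := by
    intro y
    rw [← hcT y]
    nth_rewrite 1 [hT']
    simp only [sum_div, mul_sum]
    refine sum_congr rfl fun x _ => ?_
    simp only [hg, ind]
    split_ifs <;> ring
  refine ⟨Matrix.of fun x y => A x y - off cls π A x y + g x y,
    mem_doublyStochastic_iff_sum.2 ⟨fun x y => ?_, fun x => ?_, fun y => ?_⟩, fun x y h => ?_, ?_⟩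
  · have a1 := hg0 x y
    have a2 : 0 ≤ A x y := nonneg_of_mem_doublyStochastic hA
    simp only [Matrix.of_apply, off]
    split_ifs <;> linarith
  · simp only [Matrix.of_apply, sum_add_distrib, sum_sub_distrib, hgr,
      sum_row_of_mem_doublyStochastic hA, hr]
    ring
  · simp only [Matrix.of_apply, sum_add_distrib, sum_sub_distrib, hgc,
      sum_col_of_mem_doublyStochastic hA, hc]
    ring
  · simp [off, hg, Ne.symm h]
  · have : ∀ x y, |((Matrix.of fun x y => A x y - off cls π A x y + g x y) - A) x y|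
        ≤ off cls π A x y + g x y := by
      intro x y
      simp only [Matrix.sub_apply, Matrix.of_apply]
      have a1 := hg0 x y
      have a2 := off_nonneg cls π hA x y
      rw [abs_le]; constructor <;> linarith
    refine (sum_le_sum fun x _ => sum_le_sum fun y _ => this x y).trans (le_of_eq ?_)
    simp only [sum_add_distrib, hgr, leak, hr]
    ring

theorem ds01 {S : Matrix ι ι ℝ} (hS : S ∈ doublyStochastic ℝ ι) (x y : ι) : 0 ≤ S x y ∧ S x y ≤ 1 :=
  ⟨nonneg_of_mem_doublyStochastic hS, le_one_of_mem_doublyStochastic hS⟩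

omit [DecidableEq ι] in
theorem n1_comm (M N : Matrix ι ι ℝ) : n1 (M - N) = n1 (N - M) :=
  sum_congr rfl fun _ _ => sum_congr rfl fun _ _ => abs_sub_comm _ _

theorem LB' {M : Matrix ι ι ℝ} (hM : M ∈ doublyStochastic ℝ ι)
    (hs : ∀ x y, cls y ≠ cls (π x) → M x y = 0) (x y : ι) :
    rho cls * (1 + (M - As cls π) x y ^ 2 / 4) ≤ M.permanent := by
  have h := LB cls π M (fun _ _ => nonneg_of_mem_doublyStochastic hM)
    (sum_row_of_mem_doublyStochastic hM) (sum_col_of_mem_doublyStochastic hM) hs
  by_cases e : cls y = cls (π x)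
  · have := h.2 x y e
    simpa [As, e] using this
  · simpa [As, Ne.symm e, hs x y e] using h.1

theorem lower [Nonempty ι] (hA : A ∈ doublyStochastic ℝ ι) (h1 : n1 (A - As cls π) ≤ 1) :
    rho cls + rho cls * n1 (A - As cls π) ^ 2 / (8 * Fintype.card ι ^ 4)
      - (rho cls + 2 * (Fintype.card ι).factorial) * leak cls π A ≤ A.permanent := by
  obtain ⟨A', hA', hs, hn⟩ := round cls π hA
  obtain ⟨p, _, hp⟩ := exists_max_image (univ : Finset (ι × ι))
    (fun p => |(A - As cls π) p.1 p.2|) univ_nonempty
  have hn0 : (0 : ℝ) < Fintype.card ι := by exact_mod_cast Fintype.card_pos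
  set n : ℝ := ((Fintype.card ι : ℕ) : ℝ) with hnd
  set X := (A - As cls π) p.1 p.2 with hX
  have a1 : n1 (A - As cls π) ≤ n * (n * |X|) := by
    refine (sum_le_sum fun x _ => sum_le_sum fun y _ => hp (x, y) (mem_univ _)).trans (le_of_eq ?_)
    simp only [sum_const, card_univ, nsmul_eq_mul, hnd]
  have a2 : n1 (A - As cls π) ^ 2 / (8 * n ^ 4) ≤ X ^ 2 / 8 := by
    have := pow_le_pow_left₀ (n1_nonneg _) a1 2
    rw [mul_pow, mul_pow, sq_abs] at this
    rw [div_le_iff₀ (by positivity)]
    nlinarith
  have a3 := LB' cls π hA' hs p.1 p.2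
  have a4 := per_lip A' A (ds01 hA') (ds01 hA)
  have a5 := (n1_entry (A' - A) p.1 p.2).trans hn
  have l0 := leak_nonneg cls π hA
  have l1 : leak cls π A ≤ 1 := (leak_le cls π).trans h1
  have a6 : (A' - As cls π) p.1 p.2 = X + (A' - A) p.1 p.2 := by
    simp only [hX, Matrix.sub_apply]; ring
  have a7 : (A' - A) p.1 p.2 ^ 2 ≤ 4 * leak cls π A := by
    have := pow_le_pow_left₀ (abs_nonneg _) a5 2
    rw [sq_abs] at this
    nlinarith
  have a8 : X ^ 2 / 8 - leak cls π A ≤ (A' - As cls π) p.1 p.2 ^ 2 / 4 := by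
    rw [a6]
    nlinarith [sq_nonneg (X + 2 * (A' - A) p.1 p.2)]
  have a9 := mul_le_mul_of_nonneg_left hn (Nat.cast_nonneg (α := ℝ) (Fintype.card ι).factorial)
  have r0 := rho_pos cls
  have a10 := mul_le_mul_of_nonneg_left (a2.trans (by linarith :
    X ^ 2 / 8 ≤ (A' - As cls π) p.1 p.2 ^ 2 / 4 + leak cls π A)) r0.le
  rw [mul_div_assoc]
  nlinarith

end Pool.Agent.H.MP_2b959d_co
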