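import Pool.Agent.H.MP_2b959d_co.E

set_option autoImplicit false
open Finset Filter Topology

namespace Pool.Agent.H.MP_2b959d_co

variable {ι : Type} [Fintype ι] [DecidableEq ι] (cls : ι → ι) (π : Equiv.Perm ι)
variable {A : Matrix ι ι ℝ}

omit [Fintype ι] [DecidableEq ι] in
theorem iter_iff (hπ : ∀ x y, cls (π x) = cls (π y) ↔ cls x = cls y) (t : ℕ) (x y : ι) :
    cls ((π ^ t) x) = cls ((π ^ t) y) ↔ cls x = cls y := by
  induction t with
  | zero => rfl
  | succ t ih => rw [pow_succ', Equiv.Perm.mul_apply, Equiv.Perm.mul_apply, hπ, ih]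

theorem row_off_le (hA : A ∈ doublyStochastic ℝ ι) (x : ι) :
    ∑ y, off cls π A x y ≤ leak cls π A :=
  single_le_sum (f := fun x => ∑ y, off cls π A x y)
    (fun _ _ => sum_nonneg fun _ _ => off_nonneg cls π hA _ _) (mem_univ x)

theorem close (hπ : ∀ x y, cls (π x) = cls (π y) ↔ cls x = cls y) (hA : A ∈ doublyStochastic ℝ ι)
    (b : ι) (t : ℕ) : ∀ x, |(A ^ t).mulVec (ind cls b) x - ind cls b ((π ^ t) x)|
      ≤ t * leak cls π A := by
  induction t with
  | zero => intro x; simp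
  | succ t ih =>
    intro x
    rw [pow_succ', ← Matrix.mulVec_mulVec, pow_succ, Equiv.Perm.mul_apply]
    set h := (A ^ t).mulVec (ind cls b)
    have e : A.mulVec h x - ind cls b ((π ^ t) (π x))
        = ∑ y, A x y * (h y - ind cls b ((π ^ t) (π x))) := by
      simp only [mul_sub, sum_sub_distrib, ← sum_mul, sum_row_of_mem_doublyStochastic hA, one_mul]
      rfl
    have k : ∀ y, |A x y * (h y - ind cls b ((π ^ t) (π x)))|
        ≤ A x y * (t * leak cls π A) + off cls π A x y := by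
      intro y
      have a0 : 0 ≤ A x y := nonneg_of_mem_doublyStochastic hA
      have a1 := ih y
      rw [abs_mul, abs_of_nonneg a0]
      by_cases hc : cls (π x) = cls y
      · have : ind cls b ((π ^ t) (π x)) = ind cls b ((π ^ t) y) := by
          simp only [ind, (iter_iff cls π hπ t _ _).2 hc]
        rw [this, off, if_pos hc, add_zero]
        exact mul_le_mul_of_nonneg_left a1 a0
      · have a2 : |ind cls b ((π ^ t) y) - ind cls b ((π ^ t) (π x))| ≤ 1 := by
          simp only [ind]; split_ifs <;> norm_num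
        have a3 := abs_sub_le (h y) (ind cls b ((π ^ t) y)) (ind cls b ((π ^ t) (π x)))
        rw [off, if_neg hc]
        nlinarith
    rw [e]
    refine (abs_sum_le_sum_abs _ _).trans ((sum_le_sum fun y _ => k y).trans ?_)
    rw [sum_add_distrib, ← sum_mul, sum_row_of_mem_doublyStochastic hA]
    push_cast
    linarith [row_off_le cls π hA x]

noncomputable def Sq (A : Matrix ι ι ℝ) (t : ℕ) : ℝ := ∑ b, NN ((A ^ t).mulVec (ind cls b))

theorem Sq_anti (hA : A ∈ doublyStochastic ℝ ι) : Antitone (Sq cls A) :=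
  antitone_nat_of_succ_le fun t => sum_le_sum fun b _ => by
    rw [pow_succ', ← Matrix.mulVec_mulVec]; exact NN_le hA _

theorem Sq_zero : Sq cls A 0 = Fintype.card ι := by
  simp only [Sq, NN, pow_zero, Matrix.one_mulVec, ind]
  rw [sum_comm]
  simp

theorem Sq_step (hπ : ∀ x y, cls (π x) = cls (π y) ↔ cls x = cls y) (hA : A ∈ doublyStochastic ℝ ι)
    (t : ℕ) (ht : t * leak cls π A ≤ 1 / 4) (hl : leak cls π A ≤ 1 / 2) :
    Sq cls A (t + 1) + leak cls π A / 16 ≤ Sq cls A t := by
  set h : ι → ι → ℝ := fun b => (A ^ t).mulVec (ind cls b) with hh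
  have e1 : Sq cls A t - Sq cls A (t + 1)
      = (∑ x, ∑ y, ∑ y', A x y * A x y' * ∑ b, (h b y - h b y') ^ 2) / 2 := by
    simp only [Sq, ← sum_sub_distrib, pow_succ' A t, ← Matrix.mulVec_mulVec, var_id hA, ← sum_div,
      mul_sum]
    congr 1
    rw [sum_comm]
    refine sum_congr rfl fun x _ => ?_
    rw [sum_comm]
    exact sum_congr rfl fun y _ => sum_comm
  have e2 : ∀ x y y', (A x y - off cls π A x y) * off cls π A x y' / 4
      ≤ A x y * A x y' * ∑ b, (h b y - h b y') ^ 2 := by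
    intro x y y'
    have a0 : 0 ≤ A x y * A x y' :=
      mul_nonneg (nonneg_of_mem_doublyStochastic hA) (nonneg_of_mem_doublyStochastic hA)
    have a1 : 0 ≤ A x y * A x y' * ∑ b, (h b y - h b y') ^ 2 :=
      mul_nonneg a0 (sum_nonneg fun _ _ => sq_nonneg _)
    simp only [off]
    by_cases c1 : cls (π x) = cls y
    · by_cases c2 : cls (π x) = cls y'
      · rw [if_pos c2]; simpa using a1
      · rw [if_pos c1, if_neg c2, sub_zero]
        have a2 : (h (cls ((π ^ t) y')) y - h (cls ((π ^ t) y')) y') ^ 2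
            ≤ ∑ b, (h b y - h b y') ^ 2 :=
          single_le_sum (f := fun b => (h b y - h b y') ^ 2) (fun _ _ => sq_nonneg _) (mem_univ _)
        have a3 := abs_le.1 (close cls π hπ hA (cls ((π ^ t) y')) t y)
        have a4 := abs_le.1 (close cls π hπ hA (cls ((π ^ t) y')) t y')
        have a5 : ind cls (cls ((π ^ t) y')) ((π ^ t) y) = 0 :=
          if_neg fun e => c2 (c1.trans ((iter_iff cls π hπ t _ _).1 e))
        have a6 : ind cls (cls ((π ^ t) y')) ((π ^ t) y') = 1 := if_pos rfl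
        rw [a5] at a3
        rw [a6] at a4
        have a7 : 1 / 2 ≤ h (cls ((π ^ t) y')) y' - h (cls ((π ^ t) y')) y := by
          simp only [hh]; linarith [a3.2, a4.1]
        have a8 : 1 / 4 ≤ ∑ b, (h b y - h b y') ^ 2 := by nlinarith
        nlinarith
    · rw [if_neg c1]; simpa using a1
  have e3 : ∀ x, (∑ y, off cls π A x y) / 8
      ≤ ∑ y, ∑ y', (A x y - off cls π A x y) * off cls π A x y' / 4 := by
    intro x
    simp only [← sum_div, ← mul_sum, ← sum_mul, sum_sub_distrib, sum_row_of_mem_doublyStochastic hA]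
    have a1 := row_off_le cls π hA x
    have a2 : 0 ≤ ∑ y, off cls π A x y := sum_nonneg fun _ _ => off_nonneg cls π hA _ _
    nlinarith
  have e4 := sum_le_sum fun x (_ : x ∈ univ) =>
    (e3 x).trans (sum_le_sum fun y _ => sum_le_sum fun y' _ => e2 x y y')
  rw [← sum_div] at e4
  unfold leak
  linarith

theorem Sq_K (hπ : ∀ x y, cls (π x) = cls (π y) ↔ cls x = cls y) (hA : A ∈ doublyStochastic ℝ ι)
    (hl : leak cls π A ≤ 1 / 2) (t : ℕ) (ht : t * leak cls π A ≤ 1 / 4) :
    Sq cls A t + t * leak cls π A / 16 ≤ Fintype.card ι := by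
  induction t with
  | zero => simp [Sq_zero]
  | succ t ih =>
    push_cast at ht ⊢
    have l0 := leak_nonneg cls π hA
    have h1 : t * leak cls π A ≤ 1 / 4 := by nlinarith
    linarith [ih h1, Sq_step cls π hπ hA t h1 hl]

theorem upper [Nonempty ι] (hA : A ∈ doublyStochastic ℝ ι) (k : ℕ) (d : ℝ)
    (hd : Sq cls A k + d ≤ Fintype.card ι) :
    (A ^ k).permanent ≤ rho cls * (1 - d / (2 * Fintype.card ι))
      + (Fintype.card ι).factorial * n1 (A ^ k - A ^ k * Em cls) := by
  have hB := pow_mem hA k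
  have hn0 : (0 : ℝ) < Fintype.card ι := by exact_mod_cast Fintype.card_pos
  have a1 := per_lip (A ^ k) (A ^ k * Em cls) (ds01 hB) (ds01 (mul_mem hB (Em_ds cls)))
  have a2 : ∑ x, ∑ b, (A ^ k).mulVec (ind cls b) x ^ 2 ≤ ∑ _x : ι, (1 - d / Fintype.card ι) := by
    rw [sum_comm, sum_const, card_univ, nsmul_eq_mul]
    have : (Fintype.card ι : ℝ) * (1 - d / Fintype.card ι) = Fintype.card ι - d := by field_simp
    rw [this]
    unfold Sq NN at hd
    linarith
  obtain ⟨x0, _, hx⟩ := exists_le_of_sum_le univ_nonempty a2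
  have a3 := UB cls (A ^ k) (fun _ _ => nonneg_of_mem_doublyStochastic hB)
    (sum_row_of_mem_doublyStochastic hB) x0 (1 - d / (2 * Fintype.card ι)) fun b => by
      have b1 : (A ^ k).mulVec (ind cls b) x0 ^ 2 ≤ ∑ b, (A ^ k).mulVec (ind cls b) x0 ^ 2 :=
        single_le_sum (f := fun b => (A ^ k).mulVec (ind cls b) x0 ^ 2) (fun _ _ => sq_nonneg _)
          (mem_univ b)
      have b2 : d / (2 * Fintype.card ι) = d / Fintype.card ι / 2 := by field_simp
      rw [b2]
      nlinarith [sq_nonneg ((A ^ k).mulVec (ind cls b) x0 - 1)]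
  linarith

theorem eqcase [Nonempty ι] (hπ : ∀ x y, cls (π x) = cls (π y) ↔ cls x = cls y) :
    ∃ δ : ℝ, 0 < δ ∧ ∃ K : ℕ, ∀ A ∈ doublyStochastic ℝ ι, n1 (A - As cls π) < δ →
      ∀ k, K ≤ k → (A ^ k).permanent ≤ A.permanent := by
  have hn0 : (0 : ℝ) < Fintype.card ι := by exact_mod_cast Fintype.card_pos
  have hf0 : (0 : ℝ) < (Fintype.card ι).factorial := by exact_mod_cast Nat.factorial_pos _
  have r0 := rho_pos cls
  set n : ℝ := ((Fintype.card ι : ℕ) : ℝ) with hnd
  set F : ℝ := (((Fintype.card ι).factorial : ℕ) : ℝ) with hF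
  obtain ⟨K0, hK0⟩ := exists_nat_ge ((8 * n * F + rho cls + 2 * F) * (32 * n) / rho cls)
  set K := K0 + 3 with hK
  have hKp : (3 : ℝ) ≤ K := by rw [hK]; push_cast; linarith [Nat.cast_nonneg (α := ℝ) K0]
  have hK1 : (8 * n * F + rho cls + 2 * F) ≤ rho cls * K / (32 * n) := by
    rw [div_le_iff₀ r0] at hK0
    rw [le_div_iff₀ (by positivity), hK]
    push_cast
    nlinarith
  refine ⟨min (1 / (4 * K)) (rho cls / (16 * n ^ 4 * F)), by positivity, K, fun A hA hδ k hk => ?_⟩
  have d1 := (lt_min_iff.1 hδ).1.le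
  have d2 := (lt_min_iff.1 hδ).2.le
  have x0 := n1_nonneg (A - As cls π)
  have l0 := leak_nonneg cls π hA
  have l1 : leak cls π A ≤ n1 (A - As cls π) := leak_le cls π
  rw [le_div_iff₀ (by positivity)] at d1 d2
  have d3 : n1 (A - As cls π) ≤ 1 / 2 := by nlinarith
  have d4 : K * leak cls π A ≤ 1 / 4 := by nlinarith
  have u1 := Sq_K cls π hπ hA (l1.trans d3) K d4
  have u2 := upper cls hA k (K * leak cls π A / 16) (by linarith [Sq_anti cls hA hk])
  have u3 := (n1_pow cls hA (show 3 ≤ k by omega)).trans (cube cls π hπ hA (by linarith))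
  have u4 := lower cls π hA (by linarith)
  rw [← hnd, ← hF] at u2 u4
  rw [← hnd] at u3
  set ξ := n1 (A - As cls π)
  set l := leak cls π A
  have u5 := mul_le_mul_of_nonneg_left u3 hf0.le
  have u6 : F * (2 * ξ ^ 3) ≤ rho cls * ξ ^ 2 / (8 * n ^ 4) := by
    rw [le_div_iff₀ (by positivity)]
    nlinarith [mul_le_mul_of_nonneg_left d2 (sq_nonneg ξ)]
  have u7 := mul_le_mul_of_nonneg_right hK1 l0
  have u8 : rho cls * (1 - K * l / 16 / (2 * n)) = rho cls - rho cls * K / (32 * n) * l := by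
    field_simp; ring
  nlinarith

omit [DecidableEq ι] in
theorem n1_cont : Continuous (n1 : Matrix ι ι ℝ → ℝ) := by unfold n1; fun_prop

theorem loc [Nonempty ι] {A0 : Matrix ι ι ℝ} (h0 : A0 ∈ doublyStochastic ℝ ι) :
    ∃ U ∈ 𝓝 A0, ∃ K : ℕ, ∀ A ∈ U, A ∈ doublyStochastic ℝ ι →
      ∀ k, K ≤ k → (A ^ k).permanent ≤ A.permanent := by
  obtain ⟨cls, π, hs, hπ, hc⟩ := struct h0
  by_cases he : A0 = As cls π
  · obtain ⟨δ, hδ, K, h⟩ := eqcase cls π hπ
    refine ⟨{A | n1 (A - As cls π) < δ}, ?_, K, fun A hA hA' => h A hA' hA⟩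
    refine (isOpen_lt (n1_cont.comp (continuous_id.sub continuous_const)) continuous_const).mem_nhds ?_
    simpa [he, n1] using hδ
  have hne : ∃ x y, (A0 - As cls π) x y ≠ 0 := by
    by_contra h
    push Not at h
    exact he (sub_eq_zero.1 (Matrix.ext h))
  obtain ⟨x, y, hxy⟩ := hne
  have r0 := rho_pos cls
  have h1 : rho cls < A0.permanent := by
    refine lt_of_lt_of_le ?_ (LB' cls π h0 hs x y)
    have : 0 < (A0 - As cls π) x y ^ 2 := by positivity
    nlinarith
  have hf0 : (0 : ℝ) < (Fintype.card ι).factorial := by exact_mod_cast Nat.factorial_pos _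
  obtain ⟨j, hj⟩ := hc ((A0.permanent - rho cls) / (Fintype.card ι).factorial)
    (div_pos (by linarith) hf0)
  rw [lt_div_iff₀ hf0] at hj
  refine ⟨{A | rho cls + (Fintype.card ι).factorial * n1 (A ^ j - A ^ j * Em cls) < A.permanent},
    ?_, j, fun A hA hA' k hk => ?_⟩
  · refine (isOpen_lt (continuous_const.add (continuous_const.mul (n1_cont.comp
      ((continuous_pow j).sub ((continuous_pow j).mul continuous_const))))) per_cont).mem_nhds ?_
    show rho cls + _ * n1 (A0 ^ j - A0 ^ j * Em cls) < _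
    linarith
  · have u1 := upper cls hA' k 0 (by
      rw [add_zero, ← Sq_zero cls (A := A)]; exact Sq_anti cls hA' (Nat.zero_le k))
    have u2 := mul_le_mul_of_nonneg_left (n1_pow cls hA' hk) hf0.le
    have u3 : rho cls + (Fintype.card ι).factorial * n1 (A ^ j - A ^ j * Em cls) < A.permanent := hA
    simp only [zero_div, sub_zero, mul_one] at u1
    linarith

theorem ds_compact : IsCompact (doublyStochastic ℝ ι : Set (Matrix ι ι ℝ)) := by
  have hK : IsCompact (Set.pi Set.univ fun _ : ι => Set.pi Set.univ fun _ : ι => Set.Icc (0 : ℝ) 1) :=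
    isCompact_univ_pi fun _ => isCompact_univ_pi fun _ => isCompact_Icc
  refine hK.of_isClosed_subset ?_ fun M hM x _ y _ => ds01 hM x y
  have : (doublyStochastic ℝ ι : Set (Matrix ι ι ℝ)) = (⋂ i, ⋂ j, {M | 0 ≤ M i j}) ∩
      ((⋂ i, {M | ∑ j, M i j = 1}) ∩ ⋂ j, {M | ∑ i, M i j = 1}) := by
    ext M
    simp [mem_doublyStochastic_iff_sum]
  rw [this]
  exact (isClosed_iInter fun i => isClosed_iInter fun j => isClosed_le continuous_const
    (by fun_prop)).inter ((isClosed_iInter fun i => isClosed_eq (by fun_prop) continuous_const).inter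
      (isClosed_iInter fun i => isClosed_eq (by fun_prop) continuous_const))

theorem main [Nonempty ι] : ∃ K : ℕ, ∀ A ∈ doublyStochastic ℝ ι,
    ∀ k, K ≤ k → (A ^ k).permanent ≤ A.permanent := by
  have := (ds_compact (ι := ι)).induction_on (p := fun S => ∃ K : ℕ, ∀ A ∈ S,
      A ∈ doublyStochastic ℝ ι → ∀ k, K ≤ k → (A ^ k).permanent ≤ A.permanent)
    ⟨0, fun _ h => h.elim⟩ (fun S T h ⟨K, hK⟩ => ⟨K, fun A hA => hK A (h hA)⟩)
    (fun S T ⟨K, hK⟩ ⟨L, hL⟩ => ⟨max K L, fun A hA hA' k hk => hA.elim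
      (fun h => hK A h hA' k ((le_max_left _ _).trans hk))
      fun h => hL A h hA' k ((le_max_right _ _).trans hk)⟩)
    fun A0 h0 => by
      obtain ⟨U, hU, h⟩ := loc h0
      exact ⟨U, mem_nhdsWithin_of_mem_nhds hU, h⟩
  obtain ⟨K, hK⟩ := this
  exact ⟨K, fun A hA => hK A hA hA⟩

end Pool.Agent.H.MP_2b959d_co
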